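import Pool.Agent.N384.VF.Seq
import Pool.Agent.N666.TM.Crit
import Pool.Agent.N666.TM.Exact

set_option autoImplicit false
set_option linter.unusedSectionVars false

/-!
Turan's sieve for families of vectors of residues.
-/

namespace Pool.Agent.N384.VF

open Finset Filter
open Pool.Agent.Y722.HS (red)
open Pool.Agent.N666.TM (dens crit Ex Om mem_Om dens_Om)

section
variable {ι : Type} [Fintype ι] [DecidableEq ι]

/-- **A property with a local criterion**, for families of vectors of residues -/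
theorem crit_vf (Q : ℕ → ℕ) (hQ1 : ∀ p, p.Prime → 1 ≤ Q p)
    (hQc : ∀ p p', p.Prime → p'.Prime → p ≠ p' → (Q p).Coprime (Q p'))
    (Ω : ∀ p : ℕ, Set (ι → ZMod (Q p))) (T₀ : ℕ) (w : ℕ → ℝ) (hw0 : ∀ p, 0 ≤ w p)
    (hdiv : ¬ Summable (fun p : ℕ => if p.Prime then w p else 0))
    (hΩ : ∀ p, p.Prime → T₀ < p → w p ≤ dens (Ω p)) (ε : ℝ) (hε : 0 < ε) :
    ∃ T' Z₀ : ℕ, ∀ (τ : Type) (q : ℕ) [NeZero q] (s : Finset τ) (y : τ → ι → ZMod q) (Z : ℝ), Z₀ ≤ Z → VFam q s y Z →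
      ∀ c₀ : ι → ℤ, ({i : τ | i ∈ s ∧ ¬ ∃ p, p.Prime ∧ T₀ < p ∧ p ≤ T' ∧
        red (Q p) (fun j => c₀ j + ((y i j).val : ℕ)) ∈ Ω p}.ncard : ℝ) ≤ ε * s.card := by
  classical
  refine transferM (fun k _ v => ∃ p, p.Prime ∧ T₀ < p ∧ p ≤ k ∧ red (Q p) v ∈ Ω p) ?_ ε hε ?_
  · rintro k k' N v hk ⟨p, h1, h2, h3, h4⟩
    exact ⟨p, h1, h2, h3.trans hk, h4⟩
  · intro S x κ hκ hw
    obtain ⟨T', N₀, h1⟩ := crit hκ hw Q hQ1 hQc Ω T₀ w hw0 hdiv hΩ ε hε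
    refine ⟨T', N₀, fun N hN => ?_⟩
    refine le_trans (le_of_eq ?_) (h1 N hN)
    rw [← Set.ncard_coe_finset]
    congr 2
    ext n
    simp only [Set.mem_ofPred_eq, coe_filter]
    refine and_congr_right fun _ => ?_
    push Not
    constructor
    · intro h p h2 h3 h4
      exact h p h2 h3 h4
    · intro h p h2 h3 h4
      exact h p h2 h3 h4

lemma div_primes (c : ℝ) (hc : 0 < c) : ¬ Summable (fun p : ℕ => if p.Prime then c * (1 / (p : ℝ)) else 0) := by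
  intro h
  apply not_summable_one_div_on_primes
  have h1 := h.mul_left (1 / c)
  refine h1.congr fun p => ?_
  by_cases hp : p.Prime
  · rw [if_pos hp, Set.indicator_of_mem (by exact hp)]
    field_simp
  · rw [if_neg hp, Set.indicator_of_notMem (by exact hp), mul_zero]

/-- exact prime divisors of the coordinates -/
theorem ex_vf (T₀ : ℕ) (ε : ℝ) (hε : 0 < ε) :
    ∃ T' Z₀ : ℕ, ∀ (τ : Type) (q : ℕ) [NeZero q] (s : Finset τ) (y : τ → ι → ZMod q) (Z : ℝ), Z₀ ≤ Z → VFam q s y Z →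
      ∀ c₀ : ι → ℤ, ({i : τ | i ∈ s ∧ ¬ ∀ l : ι, ∃ p, p.Prime ∧ T₀ < p ∧ p ≤ T' ∧
        Ex l p (fun j => c₀ j + ((y i j).val : ℕ))}.ncard : ℝ) ≤ ε * s.card := by
  classical
  obtain ⟨ε', hε'⟩ : ∃ ε' : ℝ, ε' = ε / (Fintype.card ι + 1) := ⟨_, rfl⟩
  have hε'0 : 0 < ε' := by rw [hε']; positivity
  have hch : ∀ l : ι, ∃ T' Z₀ : ℕ, ∀ (τ : Type) (q : ℕ) [NeZero q] (s : Finset τ) (y : τ → ι → ZMod q) (Z : ℝ),
      Z₀ ≤ Z → VFam q s y Z → ∀ c₀ : ι → ℤ, ({i : τ | i ∈ s ∧ ¬ ∃ p, p.Prime ∧ T₀ < p ∧ p ≤ T' ∧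
        red (p ^ 2) (fun j => c₀ j + ((y i j).val : ℕ)) ∈ Om l p}.ncard : ℝ) ≤ ε' * s.card := by
    intro l
    exact crit_vf (fun p => p ^ 2) (fun p hp => Nat.pos_of_ne_zero (by
        have := hp.pos
        positivity))
      (fun p p' hp hp' hne => Nat.Coprime.pow 2 2 ((Nat.coprime_primes hp hp').mpr hne))
      (fun p => Om l p) T₀ (fun p => 1 / 2 ^ Fintype.card ι * (1 / (p : ℝ))) (fun p => by positivity)
      (div_primes _ (by positivity)) (fun p hp _ => dens_Om l p hp.two_le) ε' hε'0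
  choose T' Z₀ h1 using hch
  refine ⟨∑ l, T' l, ∑ l, Z₀ l, fun τ q _ s y Z hZ hv c₀ => ?_⟩
  have hZl : ∀ l, (Z₀ l : ℝ) ≤ Z := fun l => le_trans (Nat.cast_le.2 (single_le_sum (fun _ _ => Nat.zero_le _) (mem_univ l))) hZ
  have hTl : ∀ l, T' l ≤ ∑ l, T' l := fun l => single_le_sum (fun _ _ => Nat.zero_le _) (mem_univ l)
  have hsub : {i : τ | i ∈ s ∧ ¬ ∀ l : ι, ∃ p, p.Prime ∧ T₀ < p ∧ p ≤ ∑ l, T' l ∧
      Ex l p (fun j => c₀ j + ((y i j).val : ℕ))} ⊆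
      ↑((univ : Finset ι).biUnion fun l => s.filter fun i => ¬ ∃ p, p.Prime ∧ T₀ < p ∧ p ≤ T' l ∧
        red (p ^ 2) (fun j => c₀ j + ((y i j).val : ℕ)) ∈ Om l p) := by
    rintro i ⟨hi, hbad⟩
    push Not at hbad
    obtain ⟨l, hl⟩ := hbad
    rw [mem_coe, mem_biUnion]
    refine ⟨l, mem_univ l, mem_filter.2 ⟨hi, ?_⟩⟩
    rintro ⟨p, h2, h3, h4, h5⟩
    exact hl p h2 h3 (h4.trans (hTl l)) ((mem_Om l p h2.one_lt.le _).1 h5)
  have h2 : ({i : τ | i ∈ s ∧ ¬ ∀ l : ι, ∃ p, p.Prime ∧ T₀ < p ∧ p ≤ ∑ l, T' l ∧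
      Ex l p (fun j => c₀ j + ((y i j).val : ℕ))}.ncard : ℝ) ≤
      ∑ l : ι, ((s.filter fun i => ¬ ∃ p, p.Prime ∧ T₀ < p ∧ p ≤ T' l ∧
        red (p ^ 2) (fun j => c₀ j + ((y i j).val : ℕ)) ∈ Om l p).card : ℝ) := by
    have h3 := Set.ncard_le_ncard hsub (Finset.finite_toSet _)
    rw [Set.ncard_coe_finset] at h3
    exact_mod_cast h3.trans card_biUnion_le
  refine h2.trans ?_
  calc ∑ l : ι, ((s.filter fun i => ¬ ∃ p, p.Prime ∧ T₀ < p ∧ p ≤ T' l ∧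
        red (p ^ 2) (fun j => c₀ j + ((y i j).val : ℕ)) ∈ Om l p).card : ℝ) ≤ ∑ _l : ι, ε' * s.card := by
        refine sum_le_sum fun l _ => ?_
        refine le_trans (le_of_eq ?_) (h1 l τ q s y Z (hZl l) hv c₀)
        rw [← Set.ncard_coe_finset]
        congr 2
        ext n
        simp
    _ = Fintype.card ι * (ε' * s.card) := by rw [sum_const, card_univ, nsmul_eq_mul]
    _ = (Fintype.card ι * ε') * s.card := by ring
    _ ≤ ε * s.card := by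
        apply mul_le_mul_of_nonneg_right _ (Nat.cast_nonneg _)
        rw [hε', mul_div_assoc', div_le_iff₀ (by positivity)]
        nlinarith

end

end Pool.Agent.N384.VF
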