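import Pool.Agent.N384.VF.Seq
import Pool.Agent.N141.TS.Thin

set_option autoImplicit false

/-!
Large prime divisors of the values of a polynomial at families of vectors of residues.
-/

namespace Pool.Agent.N384.VF

open Finset Filter MvPolynomial
open Pool.Agent.Y722.HS (red)
open Pool.Agent.N141.TS (MeanSet MeanPoles ZP Big core0 growth)

/-- a local condition at a large prime -/
theorem big0 {r : ℕ} {D : MvPolynomial (Fin r) ℤ} (hD : D ≠ 0) {Ω : ∀ p : ℕ, Set (Fin r → ZMod p)} (hM : MeanSet Ω)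
    (ε : ℝ) (hε : 0 < ε) : ∃ θ : ℝ, 0 < θ ∧ ∃ Z₀ : ℕ, ∀ (τ : Type) (q : ℕ) [NeZero q] (s : Finset τ)
      (y : τ → Fin r → ZMod q) (Z : ℝ), Z₀ ≤ Z → VFam q s y Z → ∀ c₀ : Fin r → ℤ,
      ({i : τ | i ∈ s ∧ ¬ (eval (fun j => c₀ j + ((y i j).val : ℕ)) D ≠ 0 ∧ ∃ p : ℕ, p.Prime ∧ Z ^ θ ≤ p ∧
        red p (fun j => c₀ j + ((y i j).val : ℕ)) ∈ Ω p)}.ncard : ℝ) ≤ ε * s.card := by
  classical
  obtain ⟨k, Z₀, h1⟩ := transferM (ι := Fin r)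
    (fun k N v => eval v D ≠ 0 ∧ ∃ p : ℕ, p.Prime ∧ (N : ℝ) ^ (1 / ((k : ℝ) + 1)) ≤ p ∧ red p v ∈ Ω p) (by
      intro k k' N v hk
      rintro ⟨h1, p, hp, h2, h3⟩
      refine ⟨h1, p, hp, ?_, h3⟩
      rcases Nat.eq_zero_or_pos N with hN | hN
      · rw [hN, Nat.cast_zero, Real.zero_rpow (by positivity)]
        positivity
      · refine le_trans (Real.rpow_le_rpow_of_exponent_le (by exact_mod_cast hN) ?_) h2
        apply one_div_le_one_div_of_le (by positivity)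
        have : (k : ℝ) ≤ k' := by exact_mod_cast hk
        linarith) ε hε (fun S x κ hκ hw => by
      obtain ⟨θ, hθ, N₀, h2⟩ := core0 hD hM hκ hw ε hε
      obtain ⟨k, hk⟩ := exists_nat_ge (1 / θ)
      refine ⟨k, N₀ + 1, fun N hN => ?_⟩
      refine le_trans ?_ (h2 N (by omega))
      apply Pool.Agent.N141.TS.ncard_mono
      intro n _ hnot
      rintro ⟨h3, p, hp, h4, h5⟩
      refine hnot ⟨h3, p, hp, le_trans (Real.rpow_le_rpow_of_exponent_le (by exact_mod_cast (by omega : 1 ≤ N)) ?_) h4, h5⟩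
      rw [div_le_iff₀ (by positivity)]
      rw [div_le_iff₀ hθ] at hk
      nlinarith)
  refine ⟨1 / (2 * ((k : ℝ) + 1)), by positivity, Z₀ + 2, fun τ q _ s y Z hZ hv c₀ => ?_⟩
  have hZ' : (Z₀ : ℝ) + 2 ≤ Z := by exact_mod_cast hZ
  have h2 := h1 τ q s y Z (by linarith) hv c₀
  refine le_trans (ncard_mono fun i _ hnot => ?_) h2
  rintro ⟨h3, p, hp, h4, h5⟩
  apply hnot
  refine ⟨h3, p, hp, le_trans ?_ h4, h5⟩
  have hZ2 : (2 : ℝ) ≤ Z := by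
    have : (0 : ℝ) ≤ Z₀ := Nat.cast_nonneg _
    linarith
  have hN2 : (2 : ℝ) ≤ (⌊Z⌋₊ : ℝ) := by
    have : 2 ≤ ⌊Z⌋₊ := Nat.le_floor (by exact_mod_cast hZ2)
    exact_mod_cast this
  have hZN : Z ≤ (⌊Z⌋₊ : ℝ) ^ (2 : ℝ) := by
    have := Nat.lt_floor_add_one Z
    rw [Real.rpow_two]
    nlinarith
  calc Z ^ (1 / (2 * ((k : ℝ) + 1))) ≤ ((⌊Z⌋₊ : ℝ) ^ (2 : ℝ)) ^ (1 / (2 * ((k : ℝ) + 1))) :=
        Real.rpow_le_rpow (by linarith) hZN (by positivity)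
    _ = (⌊Z⌋₊ : ℝ) ^ (1 / ((k : ℝ) + 1)) := by
        rw [← Real.rpow_mul (by positivity)]
        congr 1
        field_simp

/-- the values of a polynomial at the members of a family -/
theorem val_le {r : ℕ} (A : MvPolynomial (Fin r) ℤ) (B : ℕ) : ∃ (C : ℝ) (m : ℕ), 1 ≤ C ∧ ∀ (q : ℕ) [NeZero q] (v : Fin r → ZMod q)
    (c₀ : Fin r → ℤ), (∀ j, |(c₀ j : ℝ)| ≤ (q : ℝ) ^ B) →
    |((eval (fun j => c₀ j + ((v j).val : ℕ)) A : ℤ) : ℝ)| ≤ C * (q : ℝ) ^ m := by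
  obtain ⟨CA, mA, hCA, hA⟩ := growth A
  refine ⟨CA * 2 ^ mA, (B + 1) * mA, one_le_mul_of_one_le_of_one_le hCA (one_le_pow₀ (by norm_num)), fun q _ v c₀ hc₀ => ?_⟩
  have hq1 : (1 : ℝ) ≤ q := by exact_mod_cast Nat.pos_of_ne_zero (NeZero.ne q)
  have hqB : (1 : ℝ) ≤ (q : ℝ) ^ B := one_le_pow₀ hq1
  have hb : ∀ j, |((c₀ j + ((v j).val : ℕ) : ℤ) : ℝ)| ≤ 2 * (q : ℝ) ^ (B + 1) := by
    intro j
    have h1 : (((v j).val : ℕ) : ℝ) ≤ q := by exact_mod_cast (ZMod.val_lt _).le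
    have h2 : (q : ℝ) ≤ (q : ℝ) ^ (B + 1) := le_self_pow₀ hq1 (by omega)
    have h3 : (q : ℝ) ^ B ≤ (q : ℝ) ^ (B + 1) := pow_le_pow_right₀ hq1 (by omega)
    push_cast
    refine (abs_add_le _ _).trans ?_
    rw [abs_of_nonneg (show (0 : ℝ) ≤ (((v j).val : ℕ) : ℝ) from Nat.cast_nonneg _)]
    linarith [hc₀ j]
  refine (hA _ _ (by
    have : (1 : ℝ) ≤ (q : ℝ) ^ (B + 1) := one_le_pow₀ hq1
    linarith) hb).trans (le_of_eq ?_)
  rw [mul_pow, ← pow_mul]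
  ring

end Pool.Agent.N384.VF
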