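import Pool.Agent.N384.VF.Big
import Pool.Agent.N141.TS.Thin5

set_option autoImplicit false

/-!
One large prime divisor of the values of a polynomial at families of vectors of residues.
-/

namespace Pool.Agent.N384.VF

open Finset Filter MvPolynomial
open Pool.Agent.Y722.HS (red)
open Pool.Agent.N141.TS (MeanSet MeanPoles ZP Big5 eval_red)

theorem big5 {r : ℕ} {A D : MvPolynomial (Fin r) ℤ} (hD : D ≠ 0) (hM : MeanPoles A D) (ε β : ℝ) (B : ℕ) (hε : 0 < ε)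
    (hβ : 0 < β) : ∃ σ : ℝ, 0 ≤ σ ∧ ∃ Z₀ : ℕ, ∀ (τ : Type) (q : ℕ) [NeZero q] (s : Finset τ)
      (y : τ → Fin r → ZMod q) (Z : ℝ), Z₀ ≤ Z → (q : ℝ) ^ β ≤ Z → VFam q s y Z → ∀ c₀ : Fin r → ℤ,
      (∀ j, |(c₀ j : ℝ)| ≤ (q : ℝ) ^ B) →
      ({i : τ | i ∈ s ∧ ¬ Big5 σ (eval (fun j => c₀ j + ((y i j).val : ℕ)) A)
        (eval (fun j => c₀ j + ((y i j).val : ℕ)) D)}.ncard : ℝ) ≤ ε * s.card := by
  classical
  obtain ⟨θ, hθ, Z₁, h1⟩ := big0 hD (Ω := ZP A D) hM ε hε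
  obtain ⟨CA, mA, hCA, hA⟩ := val_le A B
  obtain ⟨CD, mD, hCD, hDg⟩ := val_le D B
  obtain ⟨C, hC⟩ : ∃ C, C = max CA CD := ⟨_, rfl⟩
  obtain ⟨m, hm⟩ : ∃ m, m = max mA mD := ⟨_, rfl⟩
  obtain ⟨A₁, hA₁⟩ := exists_nat_ge ((5 : ℝ) ^ (1 / θ))
  obtain ⟨A₂, hA₂⟩ := exists_nat_ge C
  refine ⟨2 * (1 + m) / (θ * β), by positivity, Z₁ + A₁ + A₂ + 1, fun τ q _ s y Z hZ hqZ hv c₀ hc₀ => ?_⟩
  have hZ' : (Z₁ : ℝ) + A₁ + A₂ + 1 ≤ Z := by exact_mod_cast hZ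
  have hn1 : (0 : ℝ) ≤ Z₁ := Nat.cast_nonneg _
  have hn2 : (0 : ℝ) ≤ A₁ := Nat.cast_nonneg _
  have hn3 : (0 : ℝ) ≤ A₂ := Nat.cast_nonneg _
  have hZ1 : 1 ≤ Z := by linarith
  have hq1 : (1 : ℝ) ≤ q := by linarith [hv.le]
  have hq0 : (0 : ℝ) < q := by linarith
  have h5Z : (5 : ℝ) ≤ Z ^ θ := by
    calc (5 : ℝ) = ((5 : ℝ) ^ (1 / θ)) ^ θ := by
          rw [← Real.rpow_mul (by norm_num), one_div_mul_cancel hθ.ne', Real.rpow_one]
      _ ≤ Z ^ θ := Real.rpow_le_rpow (by positivity) (by linarith) hθ.le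
  have hCq : C ≤ q := by linarith [hv.le]
  refine le_trans (ncard_mono fun i _ hbad => ?_) (h1 τ q s y Z (by linarith) hv c₀)
  rintro ⟨hc2, p, hp3, hpN, hpZ⟩
  have h5p : 5 ≤ p := by exact_mod_cast h5Z.trans hpN
  have hpZ' : aeval (fun j => ((c₀ j + ((y i j).val : ℕ) : ℤ) : ZMod p)) D = 0 ∧
      aeval (fun j => ((c₀ j + ((y i j).val : ℕ) : ℤ) : ZMod p)) A ≠ 0 := hpZ
  rw [eval_red, eval_red, ZMod.intCast_zmod_eq_zero_iff_dvd, Ne, ZMod.intCast_zmod_eq_zero_iff_dvd] at hpZ'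
  apply hbad
  have hC1 : 1 ≤ C := by rw [hC]; exact hCA.trans (le_max_left _ _)
  have hpm : (1 : ℝ) ≤ (q : ℝ) ^ m := one_le_pow₀ hq1
  refine ⟨hc2, p, hp3, h5p, hpZ'.1, hpZ'.2, C * (q : ℝ) ^ m, ?_, ?_, ?_⟩
  · refine (hA q (y i) c₀ hc₀).trans ?_
    apply mul_le_mul (by rw [hC]; exact le_max_left _ _) (pow_le_pow_right₀ hq1 (by rw [hm]; exact le_max_left _ _))
      (by positivity) (by linarith)
  · refine (hDg q (y i) c₀ hc₀).trans ?_
    apply mul_le_mul (by rw [hC]; exact le_max_right _ _) (pow_le_pow_right₀ hq1 (by rw [hm]; exact le_max_right _ _))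
      (by positivity) (by linarith)
  · have h1 : Real.log (C * (q : ℝ) ^ m) ≤ (1 + m) * Real.log q := by
      rw [Real.log_mul (by positivity) (by positivity), Real.log_pow]
      have := Real.log_le_log (by linarith) hCq
      linarith
    have h2 : (θ * β) * Real.log q ≤ Real.log p := by
      rw [← Real.log_rpow hq0]
      apply Real.log_le_log (by positivity)
      refine le_trans ?_ hpN
      rw [mul_comm θ β, Real.rpow_mul hq0.le]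
      exact Real.rpow_le_rpow (by positivity) hqZ hθ.le
    calc 2 * Real.log (C * (q : ℝ) ^ m) ≤ 2 * ((1 + m) * Real.log q) := by linarith
      _ = 2 * (1 + m) / (θ * β) * ((θ * β) * Real.log q) := by field_simp
      _ ≤ 2 * (1 + m) / (θ * β) * Real.log p := mul_le_mul_of_nonneg_left h2 (by positivity)

end Pool.Agent.N384.VF
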