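import Pool.Agent.N384.VF.Seq
import Pool.Agent.N647.TS.Conv

set_option autoImplicit false
set_option linter.unusedSectionVars false

/-!
From well distributed families to families of vectors of residues.
-/

namespace Pool.Agent.N384.VF

open Finset Filter
open Pool.Agent.N666.TM (Well)
open Pool.Agent.N647.TS (WellN wellN_of_well)

/-- all but the proportion `1 / y ^ A` of the members of the families with a parameter `Z ≥ N` have the property `E` -/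
def VB {d : ℕ} (N y A : ℕ) (E : (Fin d → ℕ) → Prop) : Prop :=
  ∀ (τ : Type) (q : ℕ) [NeZero q] (s : Finset τ) (y' : τ → Fin d → ZMod q) (Z : ℝ), (N : ℝ) ≤ Z → VFam q s y' Z →
    ∀ c₀ : Fin d → ℕ, ({i : τ | i ∈ s ∧ ¬ E (fun j => c₀ j + (y' i j).val)}.ncard : ℝ) ≤ 1 / (y : ℝ) ^ A * s.card

open Classical in
theorem vf_conv (d M : ℕ) : ∃ κ₀ : ℝ, 0 < κ₀ ∧ ∃ y₀ : ℕ, ∀ y N A : ℕ, y₀ ≤ y → ∀ R : ℕ → (Fin d → ℕ) → Prop,
    (∀ (S : Finset ℕ) (v : ℕ → Fin d → ℕ) (H : ℕ), WellN S v H → ∀ E : (Fin d → ℕ) → Prop,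
      (∀ m, (∀ n : ℕ, y ≤ n → n ^ M ≤ 2 * H + 1 → R n m) → E m) →
      ((S.filter fun t => ¬ E (v t)).card : ℝ) ≤ 1 / (y : ℝ) ^ A * S.card) →
    ∀ E : (Fin d → ℕ) → Prop, (∀ m, (∀ n : ℕ, y ≤ n → (n : ℝ) ≤ (N : ℝ) ^ κ₀ → R n m) → E m) → VB N y A E := by
  obtain ⟨κ₀, hκ₀⟩ : ∃ κ₀ : ℝ, κ₀ = 1 / (2 * ((d : ℝ) + 2) * (M + 1)) := ⟨_, rfl⟩
  have hκ0 : 0 < κ₀ := by rw [hκ₀]; positivity
  have h1 : Tendsto (fun N : ℕ => (N : ℝ) ^ (1 / 2 : ℝ)) atTop atTop :=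
    (tendsto_rpow_atTop (by norm_num)).comp tendsto_natCast_atTop_atTop
  obtain ⟨N₁, hN₁⟩ := eventually_atTop.1 (h1.eventually_ge_atTop (2 * 3 ^ (d + 2)))
  obtain ⟨y₂, hy₂⟩ := exists_nat_gt (((N₁ + 1 : ℕ) : ℝ) ^ κ₀)
  refine ⟨κ₀, hκ0, y₂ + 1, fun y N A hy R hM E hE => ?_⟩
  intro τ q _ s y' Z hNZ hv c₀
  by_cases hN : N₁ + 1 ≤ N
  · rcases s.eq_empty_or_nonempty with rfl | hs
    · simp
    have hN1 : (1 : ℝ) ≤ N := by exact_mod_cast (by omega : 1 ≤ N)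
    have hN0 : (0 : ℝ) < N := by linarith
    obtain ⟨n₀, hn₀⟩ : ∃ n₀ : ℕ, n₀ = ⌊(N : ℝ) ^ κ₀⌋₊ := ⟨_, rfl⟩
    have hn₀1 : 1 ≤ n₀ := by
      rw [hn₀]
      exact Nat.le_floor (by exact_mod_cast Real.one_le_rpow hN1 hκ0.le)
    have hn₀2 : (n₀ : ℝ) ≤ (N : ℝ) ^ κ₀ := by
      rw [hn₀]
      exact Nat.floor_le (by positivity)
    have hJ : 2 * (2 * ((n₀ ^ M : ℕ) : ℝ) + 1) ^ (Fintype.card (Fin d) + 2) ≤ Z := by
      refine le_trans ?_ hNZ
      rw [Fintype.card_fin]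
      have hp1 : (1 : ℝ) ≤ ((n₀ ^ M : ℕ) : ℝ) := by exact_mod_cast Nat.one_le_pow M n₀ hn₀1
      have h2 := hN₁ N (by omega)
      calc 2 * (2 * ((n₀ ^ M : ℕ) : ℝ) + 1) ^ (d + 2) ≤ 2 * (3 * ((n₀ ^ M : ℕ) : ℝ)) ^ (d + 2) := by
            gcongr
            linarith
        _ = 2 * 3 ^ (d + 2) * (n₀ : ℝ) ^ (M * (d + 2)) := by
            rw [mul_pow, Nat.cast_pow, ← pow_mul]
            ring
        _ ≤ 2 * 3 ^ (d + 2) * ((N : ℝ) ^ κ₀) ^ (M * (d + 2)) := by gcongr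
        _ ≤ 2 * 3 ^ (d + 2) * (N : ℝ) ^ (1 / 2 : ℝ) := by
            apply mul_le_mul_of_nonneg_left _ (by positivity)
            rw [← Real.rpow_natCast ((N : ℝ) ^ κ₀), ← Real.rpow_mul hN0.le]
            apply Real.rpow_le_rpow_of_exponent_le hN1
            rw [hκ₀]
            push_cast
            rw [div_mul_eq_mul_div, div_le_div_iff₀ (by positivity) (by norm_num)]
            nlinarith [show (0 : ℝ) ≤ d from Nat.cast_nonneg _, show (0 : ℝ) ≤ M from Nat.cast_nonneg _]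
        _ ≤ (N : ℝ) ^ (1 / 2 : ℝ) * (N : ℝ) ^ (1 / 2 : ℝ) := mul_le_mul_of_nonneg_right h2 (by positivity)
        _ = N := by
            rw [← Real.rpow_add hN0]
            norm_num
    have hwf := wellF_of hv hs (fun j => (c₀ j : ℤ)) (n₀ ^ M) hJ
    obtain ⟨S, x, hx1, hx2, hx3⟩ := wellF_exists s (fun i j => (c₀ j : ℤ) + ((y' i j).val : ℕ))
    have hwell := hx1 _ hwf
    have hpos : ∀ n ∈ S, ∀ j, 0 ≤ x n j := by
      have h2 := hx3 (fun v => ¬ ∀ j, 0 ≤ v j)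
      have h3 : {i : τ | i ∈ s ∧ ¬ ∀ j, 0 ≤ (c₀ j : ℤ) + ((y' i j).val : ℕ)} = ∅ := by
        ext i
        simp only [Set.mem_ofPred_eq, Set.mem_empty_iff_false, iff_false, not_and, not_not]
        intro _ j
        positivity
      rw [h3, Set.ncard_empty, Set.ncard_eq_zero ((Finset.finite_toSet S).subset fun n hn => hn.1)] at h2
      intro n hn
      by_contra hcon
      have : n ∈ ({n : ℕ | n ∈ S ∧ ¬ ∀ j, 0 ≤ x n j} : Set ℕ) := ⟨hn, hcon⟩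
      rw [h2] at this
      exact this
    have hw := wellN_of_well (m := fun n j => (x n j).toNat) hwell
      (fun n hn j => (Int.toNat_of_nonneg (hpos n hn j)).symm)
    have h4 := hM S (fun n j => (x n j).toNat) (n₀ ^ M) hw E (fun m hm => hE m fun n hyn hnN => hm n hyn (by
      have h5 : n ≤ n₀ := by
        rw [hn₀]
        exact Nat.le_floor hnN
      have := Nat.pow_le_pow_left h5 M
      omega))
    rw [hx2] at h4
    refine le_trans (le_of_eq ?_) h4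
    have h6 := hx3 (fun v => ¬ E (fun j => (v j).toNat))
    have h7 : {i : τ | i ∈ s ∧ ¬ E (fun j => ((c₀ j : ℤ) + (((y' i j).val : ℕ) : ℤ)).toNat)} =
        {i : τ | i ∈ s ∧ ¬ E (fun j => c₀ j + (y' i j).val)} := by
      ext i
      simp only [Set.mem_ofPred_eq]
      have h8 : (fun j => ((c₀ j : ℤ) + (((y' i j).val : ℕ) : ℤ)).toNat) = fun j => c₀ j + (y' i j).val := by
        funext j
        rw [← Nat.cast_add, Int.toNat_natCast]
      rw [h8]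
    rw [h7] at h6
    rw [← h6, ← Set.ncard_coe_finset]
    congr 2
    ext n
    simp
  · have hall : ∀ m, E m := by
      intro m
      refine hE m fun n hyn hnN => ?_
      exfalso
      have h2 : (N : ℝ) ^ κ₀ ≤ ((N₁ + 1 : ℕ) : ℝ) ^ κ₀ := by
        apply Real.rpow_le_rpow (Nat.cast_nonneg _) _ hκ0.le
        exact_mod_cast (by omega : N ≤ N₁ + 1)
      have h3 : (y₂ : ℝ) ≤ n := by exact_mod_cast (by omega : y₂ ≤ n)
      linarith
    have h9 : {i : τ | i ∈ s ∧ ¬ E (fun j => c₀ j + (y' i j).val)} = ∅ := by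
      ext i
      simp only [Set.mem_ofPred_eq, Set.mem_empty_iff_false, iff_false, not_and, not_not]
      exact fun _ => hall _
    rw [h9, Set.ncard_empty, Nat.cast_zero]
    positivity

theorem VB.union {d : ℕ} {N y A : ℕ} (hy : 2 ≤ y) {E₁ E₂ E : (Fin d → ℕ) → Prop} (h₁ : VB N y (A + 1) E₁)
    (h₂ : VB N y (A + 1) E₂) (h : ∀ n, E₁ n → E₂ n → E n) : VB N y A E := by
  intro τ q _ s y' Z hNZ hv c₀
  have a1 := h₁ τ q s y' Z hNZ hv c₀
  have a2 := h₂ τ q s y' Z hNZ hv c₀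
  have hsub : {i : τ | i ∈ s ∧ ¬ E (fun j => c₀ j + (y' i j).val)} ⊆
      {i : τ | i ∈ s ∧ ¬ E₁ (fun j => c₀ j + (y' i j).val)} ∪ {i : τ | i ∈ s ∧ ¬ E₂ (fun j => c₀ j + (y' i j).val)} := by
    rintro i ⟨hi, hE⟩
    by_cases hE₁ : E₁ (fun j => c₀ j + (y' i j).val)
    · exact Or.inr ⟨hi, fun hE₂ => hE (h _ hE₁ hE₂)⟩
    · exact Or.inl ⟨hi, hE₁⟩
  have f1 : {i : τ | i ∈ s ∧ ¬ E₁ (fun j => c₀ j + (y' i j).val)}.Finite :=
    (Finset.finite_toSet s).subset fun n hn => hn.1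
  have f2 : {i : τ | i ∈ s ∧ ¬ E₂ (fun j => c₀ j + (y' i j).val)}.Finite :=
    (Finset.finite_toSet s).subset fun n hn => hn.1
  have h3 := (Set.ncard_le_ncard hsub (f1.union f2)).trans (Set.ncard_union_le _ _)
  refine le_trans (Nat.cast_le.2 h3) ?_
  have hpow : 1 / (y : ℝ) ^ (A + 1) + 1 / (y : ℝ) ^ (A + 1) ≤ 1 / (y : ℝ) ^ A := by
    have h9 : (2 : ℝ) ≤ y := by exact_mod_cast hy
    rw [← add_div, div_le_div_iff₀ (by positivity) (by positivity), pow_succ, one_mul]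
    nlinarith [show (0 : ℝ) < (y : ℝ) ^ A by positivity]
  push_cast
  calc _ ≤ 1 / (y : ℝ) ^ (A + 1) * s.card + 1 / (y : ℝ) ^ (A + 1) * s.card := add_le_add a1 a2
    _ = (1 / (y : ℝ) ^ (A + 1) + 1 / (y : ℝ) ^ (A + 1)) * s.card := by ring
    _ ≤ _ := mul_le_mul_of_nonneg_right hpow (Nat.cast_nonneg _)

end Pool.Agent.N384.VF
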