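import Pool.Agent.N384.VF.Seq

set_option autoImplicit false
set_option linter.unusedSectionVars false

/-!
One exceptional set for countably many properties of the members of families of vectors of residues.
-/

namespace Pool.Agent.N384.VF

open Finset Filter

section
variable {ι : Type} [Fintype ι] [DecidableEq ι]

lemma sum_two_pow (s : Finset ℕ) : ∑ k ∈ s, (1 / 2 : ℝ) ^ (k + 1) ≤ 1 := by
  have h1 : Summable fun k : ℕ => (1 / 2 : ℝ) ^ (k + 1) := by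
    simp only [pow_succ]
    exact (summable_geometric_of_lt_one (by norm_num) (by norm_num)).mul_right _
  have h2 := h1.sum_le_tsum s fun k _ => by positivity
  refine h2.trans (le_of_eq ?_)
  simp only [pow_succ]
  rw [tsum_mul_right, tsum_geometric_of_lt_one (by norm_num) (by norm_num)]
  norm_num

/-- **One exceptional set** for countably many properties -/
theorem uniform_vf {I : Type} [Countable I] (G : I → (ι → ℤ) → Prop)
    (h : ∀ a : I, ∀ ε : ℝ, 0 < ε → ∃ Z₀ : ℕ, ∀ (τ : Type) (q : ℕ) [NeZero q] (s : Finset τ) (y : τ → ι → ZMod q) (Z : ℝ),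
      Z₀ ≤ Z → VFam q s y Z → ∀ c₀ : ι → ℤ,
      ({i : τ | i ∈ s ∧ ¬ G a (fun j => c₀ j + ((y i j).val : ℕ))}.ncard : ℝ) ≤ ε * s.card) :
    ∃ (η : ℝ → ℝ) (E : ℝ → Set (ι → ℤ)), Tendsto η atTop (nhds 0) ∧
      (∀ (τ : Type) (q : ℕ) [NeZero q] (s : Finset τ) (y : τ → ι → ZMod q) (Z : ℝ), VFam q s y Z → ∀ c₀ : ι → ℤ,
        ({i : τ | i ∈ s ∧ (fun j => c₀ j + ((y i j).val : ℕ)) ∈ E Z}.ncard : ℝ) ≤ η Z * s.card) ∧
      ∀ a : I, ∃ Z₁ : ℕ, ∀ Z : ℝ, Z₁ ≤ Z → ∀ v, v ∉ E Z → G a v := by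
  classical
  obtain ⟨f, hf⟩ := Countable.exists_injective_nat I
  have hA : ∀ (a : I) (m : ℕ), ∃ Z₀ : ℕ, ∀ (τ : Type) (q : ℕ) [NeZero q] (s : Finset τ) (y : τ → ι → ZMod q) (Z : ℝ),
      Z₀ ≤ Z → VFam q s y Z → ∀ c₀ : ι → ℤ,
      ({i : τ | i ∈ s ∧ ¬ G a (fun j => c₀ j + ((y i j).val : ℕ))}.ncard : ℝ) ≤
        (1 / ((m : ℝ) + 1) * (1 / 2) ^ (f a + 1)) * s.card := fun a m => h a _ (by positivity)
  choose A hA using hA
  have hfin : ∀ m : ℕ, {a : I | f a ≤ m}.Finite := fun m => (Set.finite_Iic m).preimage hf.injOn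
  obtain ⟨T, hT⟩ : ∃ T : ℕ → ℕ, T = fun m => ∑ a ∈ (hfin m).toFinset, A a m := ⟨_, rfl⟩
  have hTA : ∀ (a : I) (m : ℕ), f a ≤ m → A a m ≤ T m := by
    intro a m ham
    rw [hT]
    exact single_le_sum (f := fun a => A a m) (fun _ _ => Nat.zero_le _) ((hfin m).mem_toFinset.2 ham)
  obtain ⟨M, hM⟩ : ∃ M : ℝ → ℕ, M = fun Z => Nat.findGreatest (fun m => (T m : ℝ) ≤ Z) ⌊Z⌋₊ := ⟨_, rfl⟩
  have hMle : ∀ (m : ℕ) (Z : ℝ), (m : ℝ) + T m ≤ Z → m ≤ M Z ∧ (T (M Z) : ℝ) ≤ Z := by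
    intro m Z hZ
    have h1 : (0 : ℝ) ≤ T m := Nat.cast_nonneg _
    have h2 : (0 : ℝ) ≤ m := Nat.cast_nonneg _
    have h3 : m ≤ ⌊Z⌋₊ := Nat.le_floor (by linarith)
    have h4 : (T m : ℝ) ≤ Z := by linarith
    rw [hM]
    exact ⟨Nat.le_findGreatest h3 h4, Nat.findGreatest_spec (P := fun m => (T m : ℝ) ≤ Z) h3 h4⟩
  refine ⟨fun Z => 1 / ((M Z : ℝ) + 1), fun Z => {v | ∃ a : I, (f a : ℝ) + T (f a) ≤ Z ∧ ¬ G a v}, ?_, ?_, ?_⟩
  · have h1 : Tendsto M atTop atTop := by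
      rw [tendsto_atTop]
      intro m
      filter_upwards [eventually_ge_atTop ((m : ℝ) + T m)] with Z hZ
      exact (hMle m Z hZ).1
    have h2 : Tendsto (fun n : ℕ => 1 / ((n : ℝ) + 1)) atTop (nhds 0) := tendsto_one_div_add_atTop_nhds_zero_nat
    exact h2.comp h1
  · intro τ q _ s y Z hv c₀
    by_cases hex : ∃ a : I, (f a : ℝ) + T (f a) ≤ Z
    · obtain ⟨a₀, ha₀⟩ := hex
      have hTM := (hMle _ Z ha₀).2
      have hsub : {i : τ | i ∈ s ∧ (fun j => c₀ j + (((y i j).val : ℕ) : ℤ)) ∈ {v | ∃ a : I, (f a : ℝ) + T (f a) ≤ Z ∧ ¬ G a v}} ⊆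
          ↑((hfin (M Z)).toFinset.biUnion fun a => s.filter fun i => ¬ G a (fun j => c₀ j + ((y i j).val : ℕ))) := by
        rintro i ⟨hi, a, ha, hGa⟩
        rw [mem_coe, mem_biUnion]
        exact ⟨a, (hfin _).mem_toFinset.2 (hMle _ Z ha).1, mem_filter.2 ⟨hi, hGa⟩⟩
      have h1 := Set.ncard_le_ncard hsub (Finset.finite_toSet _)
      rw [Set.ncard_coe_finset] at h1
      have h2 := h1.trans card_biUnion_le
      have h3 : ∀ a ∈ (hfin (M Z)).toFinset, ((s.filter fun i => ¬ G a (fun j => c₀ j + (((y i j).val : ℕ) : ℤ))).card : ℝ) ≤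
          (1 / ((M Z : ℝ) + 1) * (1 / 2) ^ (f a + 1)) * s.card := by
        intro a ha
        have h4 := (hfin _).mem_toFinset.1 ha
        have h5 : (A a (M Z) : ℝ) ≤ Z := le_trans (Nat.cast_le.2 (hTA a (M Z) h4)) hTM
        refine le_trans (le_of_eq ?_) (hA a (M Z) τ q s y Z h5 hv c₀)
        rw [← Set.ncard_coe_finset]
        congr 2
        ext i
        simp
      calc ({i : τ | i ∈ s ∧ (fun j => c₀ j + (((y i j).val : ℕ) : ℤ)) ∈
            {v | ∃ a : I, (f a : ℝ) + T (f a) ≤ Z ∧ ¬ G a v}}.ncard : ℝ) ≤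
            ∑ a ∈ (hfin (M Z)).toFinset, ((s.filter fun i => ¬ G a (fun j => c₀ j + (((y i j).val : ℕ) : ℤ))).card : ℝ) := by
            exact_mod_cast h2
        _ ≤ ∑ a ∈ (hfin (M Z)).toFinset, (1 / ((M Z : ℝ) + 1) * (1 / 2) ^ (f a + 1)) * s.card := sum_le_sum h3
        _ = 1 / ((M Z : ℝ) + 1) * (∑ a ∈ (hfin (M Z)).toFinset, (1 / 2) ^ (f a + 1)) * s.card := by
            rw [mul_sum, sum_mul]
        _ ≤ 1 / ((M Z : ℝ) + 1) * 1 * s.card := by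
            apply mul_le_mul_of_nonneg_right _ (Nat.cast_nonneg _)
            apply mul_le_mul_of_nonneg_left _ (by positivity)
            rw [← sum_image (f := fun k : ℕ => (1 / 2 : ℝ) ^ (k + 1)) (g := f) (fun a _ b _ hab => hf hab)]
            exact sum_two_pow _
        _ = 1 / ((M Z : ℝ) + 1) * s.card := by rw [mul_one]
    · have h1 : {i : τ | i ∈ s ∧ (fun j => c₀ j + (((y i j).val : ℕ) : ℤ)) ∈ {v | ∃ a : I, (f a : ℝ) + T (f a) ≤ Z ∧ ¬ G a v}} =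
          ∅ := by
        ext i
        simp only [Set.mem_ofPred_eq, Set.mem_empty_iff_false, iff_false, not_and]
        rintro - ⟨a, ha, -⟩
        exact hex ⟨a, ha⟩
      rw [h1, Set.ncard_empty, Nat.cast_zero]
      positivity
  · intro a
    refine ⟨f a + T (f a), fun Z hZ v hv => ?_⟩
    by_contra hG
    exact hv ⟨a, by exact_mod_cast hZ, hG⟩

end

end Pool.Agent.N384.VF
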