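import Pool.Agent.N384.VF.Crit
import Pool.Agent.N384.VF.Uni
import Pool.Agent.N384.MQ.Flat
import Pool.Agent.N680.TH.Thin

set_option autoImplicit false
set_option linter.unusedSectionVars false

/-!
Families of residues: members which are divisible exactly once by a prime of a set with divergent sum of reciprocals.
-/

namespace Pool.Agent.N384.VF

open Finset Filter
open Pool.Agent.Y722.HS (red)
open Pool.Agent.N666.TM (dens dens_nonneg Om mem_Om dens_Om)
open Pool.Agent.N680.TH (Once)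

lemma vfam_one {τ : Type} {q : ℕ} [NeZero q] {s : Finset τ} {y : τ → ZMod q} {Z : ℝ} (h1 : Z ≤ q)
    (h2 : Pool.Agent.N384.MQ.Flat q (1 / (Z * (42 + 3 * Real.log q))) s y) :
    VFam (ι := Unit) q s (fun i _ => y i) Z := by
  refine ⟨h1, fun h hh => ?_⟩
  have h3 : h () ≠ 0 := by
    intro h0
    exact hh (funext fun _ => h0)
  have h4 := h2 (h ()) h3
  rw [Fintype.card_unit, pow_one]
  simpa using h4

/-- members divisible exactly once by a prime of the set -/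
theorem once_vf (Ps : Set ℕ) (hPs : ∀ p ∈ Ps, p.Prime)
    (hdiv : ¬ Summable (fun n : ℕ => Ps.indicator (fun n : ℕ => (1 : ℝ) / n) n)) (ε : ℝ) (hε : 0 < ε) :
    ∃ Z₀ : ℕ, ∀ (τ : Type) (q : ℕ) [NeZero q] (s : Finset τ) (y : τ → Unit → ZMod q) (Z : ℝ), Z₀ ≤ Z → VFam q s y Z →
      ∀ c₀ : Unit → ℤ, ({i : τ | i ∈ s ∧ ¬ ∃ p ∈ Ps, Once p ((fun j => c₀ j + (((y i j).val : ℕ) : ℤ)) ())}.ncard : ℝ) ≤
        ε * s.card := by
  classical
  obtain ⟨T', Z₀, h1⟩ := crit_vf (ι := Unit) (fun p => p ^ 2) (fun p hp => Nat.pos_of_ne_zero (by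
      have := hp.pos
      positivity))
    (fun p p' hp hp' hne => Nat.Coprime.pow 2 2 ((Nat.coprime_primes hp hp').mpr hne))
    (fun p => if p ∈ Ps then Om () p else ∅) 0 (fun p => 1 / 2 * Ps.indicator (fun n : ℕ => (1 : ℝ) / n) p)
    (fun p => by
      have : 0 ≤ Ps.indicator (fun n : ℕ => (1 : ℝ) / n) p := Set.indicator_nonneg (fun _ _ => by positivity) _
      positivity)
    (by
      intro hsum
      apply hdiv
      have h2 := hsum.mul_left 2
      refine h2.congr fun p => ?_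
      by_cases hp : p.Prime
      · rw [if_pos hp]
        ring
      · rw [if_neg hp, mul_zero, Set.indicator_of_notMem]
        exact fun h => hp (hPs p h))
    (fun p hp _ => by
      change 1 / 2 * Ps.indicator (fun n : ℕ => (1 : ℝ) / n) p ≤ dens (if p ∈ Ps then Om () p else ∅)
      by_cases h : p ∈ Ps
      · rw [if_pos h, Set.indicator_of_mem h]
        have h1 := dens_Om () p hp.two_le
        rw [Fintype.card_unit, pow_one] at h1
        exact h1
      · rw [if_neg h, Set.indicator_of_notMem h, mul_zero]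
        exact dens_nonneg _) ε hε
  refine ⟨Z₀, fun τ q _ s y Z hZ hv c₀ => le_trans (ncard_mono fun i _ hnot => ?_) (h1 τ q s y Z hZ hv c₀)⟩
  rintro ⟨p, hp, -, -, h2⟩
  apply hnot
  by_cases h : p ∈ Ps
  · rw [if_pos h, mem_Om () p hp.one_lt.le] at h2
    exact ⟨p, h, h2.1, h2.2.1⟩
  · rw [if_neg h] at h2
    exact absurd h2 (Set.notMem_empty _)

/-- one exceptional set for countably many sets of primes -/
theorem once_uniform {I : Type} [Countable I] (Ps : I → Set ℕ) (hPs : ∀ i, ∀ p ∈ Ps i, p.Prime)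
    (hdiv : ∀ i, ¬ Summable (fun n : ℕ => (Ps i).indicator (fun n : ℕ => (1 : ℝ) / n) n)) :
    ∃ (η : ℝ → ℝ) (E : ℝ → Set ℤ), Tendsto η atTop (nhds 0) ∧
      (∀ (τ : Type) (q : ℕ) [NeZero q] (s : Finset τ) (y : τ → ZMod q) (Z : ℝ), Z ≤ q →
        Pool.Agent.N384.MQ.Flat q (1 / (Z * (42 + 3 * Real.log q))) s y → ∀ c₀ : ℤ,
        ({i : τ | i ∈ s ∧ c₀ + (((y i).val : ℕ) : ℤ) ∈ E Z}.ncard : ℝ) ≤ η Z * s.card) ∧
      ∀ i, ∃ Z₁ : ℕ, ∀ Z : ℝ, Z₁ ≤ Z → ∀ a, a ∉ E Z → ∃ p ∈ Ps i, Once p a := by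
  obtain ⟨η, E, h1, h2, h3⟩ := uniform_vf (ι := Unit) (fun (i : I) v => ∃ p ∈ Ps i, Once p (v ()))
    (fun i ε hε => once_vf (Ps i) (hPs i) (hdiv i) ε hε)
  refine ⟨η, fun Z => {a | (fun _ => a) ∈ E Z}, h1, fun τ q _ s y Z hZ hfl c₀ => ?_, fun i => ?_⟩
  · exact h2 τ q s (fun i _ => y i) Z (vfam_one hZ hfl) (fun _ => c₀)
  · obtain ⟨Z₁, h4⟩ := h3 i
    exact ⟨Z₁, fun Z hZ a ha => h4 Z hZ (fun _ => a) ha⟩

end Pool.Agent.N384.VF
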