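import Pool.Agent.N384.VF.Crit
import Pool.Agent.N384.VF.Uni
import Pool.Agent.N603.TH.Sieve

set_option autoImplicit false
set_option linter.unusedSectionVars false

/-!
Prime divisors of the values of polynomials at families of vectors of residues.
-/

namespace Pool.Agent.N384.VF

open Finset Filter
open Pool.Agent.Y722.HS (red)
open Pool.Agent.N666.TM (dens dens_nonneg)
open Pool.Agent.N603.TH (Divergent dens_fin nonzero_count not_summable_of_ge aeval_red countable_pol)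

section
variable {ι : Type} [Fintype ι] [DecidableEq ι]

/-- residue classes modulo primes with divergent sum of densities -/
theorem dens_vf (Ω : ∀ p : ℕ, Set (ι → ZMod p)) (hΩ : ¬ Summable fun p : ℕ => if p.Prime then dens (Ω p) else 0)
    (D : ℕ) (ε : ℝ) (hε : 0 < ε) :
    ∃ T' Z₀ : ℕ, ∀ (τ : Type) (q : ℕ) [NeZero q] (s : Finset τ) (y : τ → ι → ZMod q) (Z : ℝ), Z₀ ≤ Z → VFam q s y Z →
      ∀ c₀ : ι → ℤ, ({i : τ | i ∈ s ∧ ¬ ∃ p, p.Prime ∧ D < p ∧ p ≤ T' ∧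
        red p (fun j => c₀ j + ((y i j).val : ℕ)) ∈ Ω p}.ncard : ℝ) ≤ ε * s.card :=
  crit_vf (fun p => p) (fun p hp => hp.one_lt.le) (fun p p' hp hp' hne => (Nat.coprime_primes hp hp').mpr hne) Ω D
    (fun p => dens (Ω p)) (fun p => dens_nonneg _) hΩ (fun p _ _ => le_rfl) ε hε

lemma union_vf {P Q : (ι → ℤ) → Prop}
    (h₁ : ∀ ε : ℝ, 0 < ε → ∃ Z₀ : ℕ, ∀ (τ : Type) (q : ℕ) [NeZero q] (s : Finset τ) (y : τ → ι → ZMod q) (Z : ℝ),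
      Z₀ ≤ Z → VFam q s y Z → ∀ c₀ : ι → ℤ,
      ({i : τ | i ∈ s ∧ ¬ P (fun j => c₀ j + ((y i j).val : ℕ))}.ncard : ℝ) ≤ ε * s.card)
    (h₂ : ∀ ε : ℝ, 0 < ε → ∃ Z₀ : ℕ, ∀ (τ : Type) (q : ℕ) [NeZero q] (s : Finset τ) (y : τ → ι → ZMod q) (Z : ℝ),
      Z₀ ≤ Z → VFam q s y Z → ∀ c₀ : ι → ℤ,
      ({i : τ | i ∈ s ∧ ¬ Q (fun j => c₀ j + ((y i j).val : ℕ))}.ncard : ℝ) ≤ ε * s.card) (ε : ℝ) (hε : 0 < ε) :
    ∃ Z₀ : ℕ, ∀ (τ : Type) (q : ℕ) [NeZero q] (s : Finset τ) (y : τ → ι → ZMod q) (Z : ℝ),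
      Z₀ ≤ Z → VFam q s y Z → ∀ c₀ : ι → ℤ,
      ({i : τ | i ∈ s ∧ ¬ (P (fun j => c₀ j + ((y i j).val : ℕ)) ∧ Q (fun j => c₀ j + ((y i j).val : ℕ)))}.ncard : ℝ) ≤
        ε * s.card := by
  obtain ⟨Z₁, g1⟩ := h₁ (ε / 2) (half_pos hε)
  obtain ⟨Z₂, g2⟩ := h₂ (ε / 2) (half_pos hε)
  refine ⟨Z₁ + Z₂, fun τ q _ s y Z hZ hv c₀ => ?_⟩
  have hZ' : (Z₁ : ℝ) + Z₂ ≤ Z := by exact_mod_cast hZ
  have n1 : (0 : ℝ) ≤ Z₁ := Nat.cast_nonneg _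
  have n2 : (0 : ℝ) ≤ Z₂ := Nat.cast_nonneg _
  have a1 := g1 τ q s y Z (by linarith) hv c₀
  have a2 := g2 τ q s y Z (by linarith) hv c₀
  have hsub : {i : τ | i ∈ s ∧ ¬ (P (fun j => c₀ j + (((y i j).val : ℕ) : ℤ)) ∧ Q (fun j => c₀ j + (((y i j).val : ℕ) : ℤ)))} ⊆
      {i : τ | i ∈ s ∧ ¬ P (fun j => c₀ j + (((y i j).val : ℕ) : ℤ))} ∪
      {i : τ | i ∈ s ∧ ¬ Q (fun j => c₀ j + (((y i j).val : ℕ) : ℤ))} := by
    rintro i ⟨hi, h⟩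
    by_cases hP : P (fun j => c₀ j + (((y i j).val : ℕ) : ℤ))
    · exact Or.inr ⟨hi, fun hQ => h ⟨hP, hQ⟩⟩
    · exact Or.inl ⟨hi, hP⟩
  have f1 : {i : τ | i ∈ s ∧ ¬ P (fun j => c₀ j + (((y i j).val : ℕ) : ℤ))}.Finite :=
    (Finset.finite_toSet s).subset fun n hn => hn.1
  have f2 : {i : τ | i ∈ s ∧ ¬ Q (fun j => c₀ j + (((y i j).val : ℕ) : ℤ))}.Finite :=
    (Finset.finite_toSet s).subset fun n hn => hn.1
  have h3 := (Set.ncard_le_ncard hsub (f1.union f2)).trans (Set.ncard_union_le _ _)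
  refine le_trans (Nat.cast_le.2 h3) ?_
  push_cast
  linarith

end

/-- the value of `f` at `v` is not zero and has a prime divisor above `D` which does not divide the value of `G` -/
def GoodAt {r : ℕ} (f G : MvPolynomial (Fin r) ℤ) (D : ℕ) (v : Fin r → ℤ) : Prop :=
  MvPolynomial.eval v f ≠ 0 ∧ ∃ p : ℕ, p.Prime ∧ D < p ∧ (p : ℤ) ∣ MvPolynomial.eval v f ∧ ¬ (p : ℤ) ∣ MvPolynomial.eval v G

theorem pol_vf {r : ℕ} (f G : MvPolynomial (Fin r) ℤ) (D : ℕ) (hf : f ≠ 0) (hd : Divergent f G) (ε : ℝ) (hε : 0 < ε) :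
    ∃ Z₀ : ℕ, ∀ (τ : Type) (q : ℕ) [NeZero q] (s : Finset τ) (y : τ → Fin r → ZMod q) (Z : ℝ), Z₀ ≤ Z → VFam q s y Z →
      ∀ c₀ : Fin r → ℤ, ({i : τ | i ∈ s ∧ ¬ GoodAt f G D (fun j => c₀ j + ((y i j).val : ℕ))}.ncard : ℝ) ≤ ε * s.card := by
  classical
  have h1 := union_vf (ι := Fin r) (P := fun v => ∃ p, p.Prime ∧ D < p ∧
        red p v ∈ {v : Fin r → ZMod p | MvPolynomial.aeval v f = 0 ∧ MvPolynomial.aeval v G ≠ 0})
      (Q := fun v => ∃ p, p.Prime ∧ D < p ∧ red p v ∈ {v : Fin r → ZMod p | MvPolynomial.aeval v f ≠ 0})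
      (fun ε hε => by
        obtain ⟨T', Z₀, h2⟩ := dens_vf
          (fun p => {v : Fin r → ZMod p | MvPolynomial.aeval v f = 0 ∧ MvPolynomial.aeval v G ≠ 0}) (by
            unfold Divergent at hd
            simp only [dens_fin]
            exact hd) D ε hε
        refine ⟨Z₀, fun τ q _ s y Z hZ hv c₀ => le_trans (ncard_mono fun i _ hnot => ?_) (h2 τ q s y Z hZ hv c₀)⟩
        rintro ⟨p, a1, a2, -, a3⟩
        exact hnot ⟨p, a1, a2, a3⟩)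
      (fun ε hε => by
        obtain ⟨T', Z₀, h2⟩ := dens_vf (fun p => {v : Fin r → ZMod p | MvPolynomial.aeval v f ≠ 0}) (by
            obtain ⟨p₀, hp₀⟩ := nonzero_count f hf
            refine not_summable_of_ge (δ := 1 / 2) (p₀ := p₀) (fun p => ?_) (by norm_num) fun p hp hlt => ?_
            · split_ifs
              · exact dens_nonneg _
              · exact le_rfl
            · have hp1 : (1 : ℝ) ≤ p := by exact_mod_cast hp.one_lt.le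
              rw [if_pos hp, dens_fin, le_div_iff₀ (by positivity)]
              refine le_trans ?_ (hp₀ p hp hlt)
              have hp3 : (0 : ℝ) ≤ (p : ℝ) ^ r := by positivity
              have hp2 : (1 : ℝ) / 2 / p ≤ 1 / 2 := div_le_self (by norm_num) hp1
              nlinarith) D ε hε
        refine ⟨Z₀, fun τ q _ s y Z hZ hv c₀ => le_trans (ncard_mono fun i _ hnot => ?_) (h2 τ q s y Z hZ hv c₀)⟩
        rintro ⟨p, a1, a2, -, a3⟩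
        exact hnot ⟨p, a1, a2, a3⟩) ε hε
  obtain ⟨Z₀, h2⟩ := h1
  refine ⟨Z₀, fun τ q _ s y Z hZ hv c₀ => le_trans (ncard_mono fun i _ hnot => ?_) (h2 τ q s y Z hZ hv c₀)⟩
  rintro ⟨⟨p, hp, hpD, c3, c4⟩, ⟨p', hp', hpD', c5⟩⟩
  apply hnot
  rw [aeval_red] at c3 c4
  simp only [Set.mem_ofPred_eq] at c5
  rw [aeval_red] at c5
  refine ⟨fun h0 => c5 ?_, p, hp, hpD, ?_, ?_⟩
  · rw [h0, Int.cast_zero]
  · rwa [ZMod.intCast_zmod_eq_zero_iff_dvd] at c3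
  · rwa [Ne, ZMod.intCast_zmod_eq_zero_iff_dvd] at c4

/-- One exceptional set for all polynomials in `r` variables. -/
theorem pol_uniform (r : ℕ) : ∃ (η : ℝ → ℝ) (E : ℝ → Set (Fin r → ℤ)), Tendsto η atTop (nhds 0) ∧
      (∀ (τ : Type) (q : ℕ) [NeZero q] (s : Finset τ) (y : τ → Fin r → ZMod q) (Z : ℝ), VFam q s y Z → ∀ c₀ : Fin r → ℤ,
        ({i : τ | i ∈ s ∧ (fun j => c₀ j + ((y i j).val : ℕ)) ∈ E Z}.ncard : ℝ) ≤ η Z * s.card) ∧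
      ∀ (f G : MvPolynomial (Fin r) ℤ) (D : ℕ), f ≠ 0 → Divergent f G →
        ∃ Z₁ : ℕ, ∀ Z : ℝ, Z₁ ≤ Z → ∀ v, v ∉ E Z → GoodAt f G D v := by
  obtain ⟨η, E, h1, h2, h3⟩ := uniform_vf (ι := Fin r)
    (I := {x : MvPolynomial (Fin r) ℤ × MvPolynomial (Fin r) ℤ × ℕ // x.1 ≠ 0 ∧ Divergent x.1 x.2.1})
    (fun x v => GoodAt x.1.1 x.1.2.1 x.1.2.2 v) (fun x ε hε => pol_vf _ _ _ x.2.1 x.2.2 ε hε)
  exact ⟨η, E, h1, h2, fun f G D hf hd => h3 ⟨(f, G, D), hf, hd⟩⟩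

end Pool.Agent.N384.VF
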