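import Pool.Agent.N384.VF.Base
import Pool.Agent.N666.TM.Mean

set_option autoImplicit false
set_option linter.unusedSectionVars false
set_option linter.unusedVariables false

/-!
Families of vectors of residues as parts of one sequence; the transfer of assertions on well distributed sequences.
-/

namespace Pool.Agent.N384.VF

open Finset Filter
open Pool.Agent.Y722.HS (red)
open Pool.Agent.N666.TM (Well)

section
variable {ι : Type}

lemma ncard_mono {τ : Type} {s : Finset τ} {P Q : τ → Prop} (h : ∀ i ∈ s, P i → Q i) :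
    ({i : τ | i ∈ s ∧ P i}.ncard : ℝ) ≤ ({i : τ | i ∈ s ∧ Q i}.ncard : ℝ) := by
  have h1 : {i : τ | i ∈ s ∧ P i}.ncard ≤ {i : τ | i ∈ s ∧ Q i}.ncard :=
    Set.ncard_le_ncard (fun n hn => ⟨hn.1, h n hn.1 hn.2⟩) ((Finset.finite_toSet s).subset fun n hn => hn.1)
  exact_mod_cast h1

/-- the members of the family with the number `N` -/
def blk (s : ∀ N : ℕ, Σ τ : Type, Finset τ) (N : ℕ) : Finset ℕ := (range (s N).2.card).image (Nat.pair N)

open Classical in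
/-- one sequence for all families -/
noncomputable def seq (s : ∀ N : ℕ, Σ τ : Type, Finset τ) (c : ∀ N : ℕ, (s N).1 → ι → ℤ) (n : ℕ) : ι → ℤ :=
  if h : (Nat.unpair n).2 < (s (Nat.unpair n).1).2.card then
    c (Nat.unpair n).1 ((s (Nat.unpair n).1).2.equivFin.symm ⟨(Nat.unpair n).2, h⟩ : (s (Nat.unpair n).1).2)
  else 0

lemma seq_pair (s : ∀ N : ℕ, Σ τ : Type, Finset τ) (c : ∀ N : ℕ, (s N).1 → ι → ℤ) (N k : ℕ) (h : k < (s N).2.card) :
    seq s c (Nat.pair N k) = c N ((s N).2.equivFin.symm ⟨k, h⟩ : (s N).2) := by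
  unfold seq
  have h1 : (Nat.unpair (Nat.pair N k)).1 = N := by rw [Nat.unpair_pair]
  have h2 : (Nat.unpair (Nat.pair N k)).2 = k := by rw [Nat.unpair_pair]
  have key : ∀ (a b : ℕ) (ha : a = N) (hb : b = k),
      (if h : b < (s a).2.card then c a ((s a).2.equivFin.symm ⟨b, h⟩ : (s a).2) else 0) =
        c N ((s N).2.equivFin.symm ⟨k, h⟩ : (s N).2) := by
    rintro a b rfl rfl
    rw [dif_pos h]
  exact key _ _ h1 h2

lemma sum_blk {M : Type*} [AddCommMonoid M] (s : ∀ N : ℕ, Σ τ : Type, Finset τ) (c : ∀ N : ℕ, (s N).1 → ι → ℤ) (N : ℕ)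
    (f : (ι → ℤ) → M) : ∑ n ∈ blk s N, f (seq s c n) = ∑ i ∈ (s N).2, f (c N i) := by
  classical
  unfold blk
  rw [sum_image (by
    intro a _ b _ hab
    have := congrArg Nat.unpair hab
    rw [Nat.unpair_pair, Nat.unpair_pair] at this
    exact (Prod.mk.inj this).2)]
  rw [← Fin.sum_univ_eq_sum_range (fun k => f (seq s c (Nat.pair N k))) (s N).2.card, ← sum_coe_sort (s N).2]
  rw [← Equiv.sum_comp (s N).2.equivFin.symm (fun i : (s N).2 => f (c N i))]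
  refine sum_congr rfl fun k _ => ?_
  rw [seq_pair s c N k k.2]

lemma card_blk (s : ∀ N : ℕ, Σ τ : Type, Finset τ) (N : ℕ) : (blk s N).card = (s N).2.card := by
  have h := sum_blk (ι := ℕ) (M := ℕ) s (fun N _ => 0) N (fun _ => 1)
  simpa using h

lemma card_blk_filter (s : ∀ N : ℕ, Σ τ : Type, Finset τ) (c : ∀ N : ℕ, (s N).1 → ι → ℤ) (N : ℕ) (Q : (ι → ℤ) → Prop)
    [DecidablePred fun n => Q (seq s c n)] [DecidablePred fun i => Q (c N i)] :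
    ((blk s N).filter (fun n => Q (seq s c n))).card = ((s N).2.filter (fun i => Q (c N i))).card := by
  classical
  have h := sum_blk (M := ℕ) s c N (fun v => if Q v then 1 else 0)
  rw [card_filter, card_filter]
  convert h

variable [Fintype ι] [DecidableEq ι]

/-- the vectors are well distributed in the residue classes modulo the integers up to `2 H + 1` -/
structure WellF {τ : Type} (s : Finset τ) (c : τ → ι → ℤ) (H : ℕ) : Prop where
  pos : 0 < s.card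
  dist : ∀ q : ℕ, 1 ≤ q → q ≤ 2 * H + 1 → ∀ ρ : ι → ZMod q,
    |((#{i ∈ s | red q (c i) = ρ} : ℕ) : ℝ) / s.card - 1 / (q : ℝ) ^ Fintype.card ι| ≤
      1 / (2 * H + 1) * (1 / (q : ℝ) ^ Fintype.card ι)

lemma well_blk (s : ∀ N : ℕ, Σ τ : Type, Finset τ) (c : ∀ N : ℕ, (s N).1 → ι → ℤ) (N H : ℕ) (h : WellF (s N).2 (c N) H) :
    Well (blk s N) (seq s c) H := by
  refine ⟨by rw [card_blk]; exact h.pos, fun q hq1 hq2 ρ => ?_⟩
  have := h.dist q hq1 hq2 ρ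
  rw [← card_blk_filter s c N (fun v => red q v = ρ), ← card_blk s N] at this
  exact this

/-- a family of vectors of residues modulo `q` with Fourier coefficients at most `1 / (Z (42 + 3 log q) ^ r)`, where `r` is the
number of the coordinates, `Z ≤ q` -/
structure VFam {τ : Type} (q : ℕ) [NeZero q] (s : Finset τ) (y : τ → ι → ZMod q) (Z : ℝ) : Prop where
  le : Z ≤ q
  flat : Flat q (1 / (Z * (42 + 3 * Real.log q) ^ Fintype.card ι)) s y

theorem wellF_of {τ : Type} {q : ℕ} [NeZero q] {s : Finset τ} {y : τ → ι → ZMod q} {Z : ℝ} (hv : VFam q s y Z)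
    (hs : s.Nonempty) (c₀ : ι → ℤ) (H : ℕ) (hZ : 2 * (2 * (H : ℝ) + 1) ^ (Fintype.card ι + 2) ≤ Z) :
    WellF s (fun i j => c₀ j + ((y i j).val : ℕ)) H := by
  have hH1 : (1 : ℝ) ≤ 2 * (H : ℝ) + 1 := by
    have : (0 : ℝ) ≤ H := Nat.cast_nonneg _
    linarith
  have hZ1 : 1 ≤ Z := by
    have : (1 : ℝ) ≤ (2 * (H : ℝ) + 1) ^ (Fintype.card ι + 2) := one_le_pow₀ hH1
    linarith
  have hZ0 : 0 < Z := by linarith
  have hL : 1 ≤ 42 + 3 * Real.log q := by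
    have := Real.log_natCast_nonneg q
    linarith
  have hq0 : (0 : ℝ) < q := lt_of_lt_of_le hZ0 hv.le
  refine ⟨hs.card_pos, fun m hm1 hm2 ρ => ?_⟩
  have hm0 : (0 : ℝ) < m := by exact_mod_cast hm1
  have hm1r : (1 : ℝ) ≤ m := by exact_mod_cast hm1
  have hm2r : (m : ℝ) ≤ 2 * (H : ℝ) + 1 := by exact_mod_cast hm2
  have h1 := count_le q _ (by positivity) s hs y hv.flat c₀ m hm1 ρ
  refine h1.trans ?_
  have e1 : 1 / (Z * (42 + 3 * Real.log q) ^ Fintype.card ι) * (42 + 3 * Real.log q) ^ Fintype.card ι = 1 / Z := by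
    field_simp
  rw [e1]
  have h2 : (m : ℝ) / q ≤ m / Z := div_le_div_of_nonneg_left hm0.le hZ0 hv.le
  have h3 : (m : ℝ) / q + 1 / Z ≤ 2 * (2 * (H : ℝ) + 1) / Z := by
    have h4 : 1 / Z ≤ (m : ℝ) / Z := div_le_div_of_nonneg_right hm1r hZ0.le
    calc (m : ℝ) / q + 1 / Z ≤ m / Z + m / Z := add_le_add h2 h4
      _ = 2 * m / Z := by ring
      _ ≤ _ := div_le_div_of_nonneg_right (by linarith) hZ0.le
  refine h3.trans ?_
  rw [div_mul_div_comm, one_mul, div_le_div_iff₀ hZ0 (by positivity), one_mul]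
  calc 2 * (2 * (H : ℝ) + 1) * ((2 * (H : ℝ) + 1) * (m : ℝ) ^ Fintype.card ι) ≤
        2 * (2 * (H : ℝ) + 1) * ((2 * (H : ℝ) + 1) * (2 * (H : ℝ) + 1) ^ Fintype.card ι) := by gcongr
    _ = 2 * (2 * (H : ℝ) + 1) ^ (Fintype.card ι + 2) := by ring
    _ ≤ Z := hZ

/-- the exponent of distribution -/
noncomputable def kap (ι : Type) [Fintype ι] : ℝ := 1 / (2 * ((Fintype.card ι : ℝ) + 2))

lemma kap_pos (ι : Type) [Fintype ι] : 0 < kap ι := by
  unfold kap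
  positivity

lemma kap_ev (ι : Type) [Fintype ι] : ∃ N₀ : ℕ, ∀ N : ℕ, N₀ ≤ N → ∀ H : ℕ, (H : ℝ) ≤ (N : ℝ) ^ kap ι →
    2 * (2 * (H : ℝ) + 1) ^ (Fintype.card ι + 2) ≤ N := by
  have h1 : Tendsto (fun N : ℕ => (N : ℝ) ^ (1 / 2 : ℝ)) atTop atTop :=
    (tendsto_rpow_atTop (by norm_num)).comp tendsto_natCast_atTop_atTop
  obtain ⟨N₀, hN₀⟩ := eventually_atTop.1 (h1.eventually_ge_atTop (2 * 3 ^ (Fintype.card ι + 2)))
  refine ⟨N₀ + 1, fun N hN H hH => ?_⟩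
  have h2 := hN₀ N (by omega)
  have hN1 : (1 : ℝ) ≤ N := by exact_mod_cast (by omega : 1 ≤ N)
  have hN0 : (0 : ℝ) < N := by linarith
  have hk1 : (1 : ℝ) ≤ (N : ℝ) ^ kap ι := Real.one_le_rpow hN1 (kap_pos ι).le
  calc 2 * (2 * (H : ℝ) + 1) ^ (Fintype.card ι + 2) ≤ 2 * (3 * (N : ℝ) ^ kap ι) ^ (Fintype.card ι + 2) := by
        gcongr
        linarith
    _ = 2 * 3 ^ (Fintype.card ι + 2) * (N : ℝ) ^ (1 / 2 : ℝ) := by
        rw [mul_pow, ← Real.rpow_natCast ((N : ℝ) ^ kap ι), ← Real.rpow_mul hN0.le, mul_assoc]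
        congr 3
        unfold kap
        push_cast
        field_simp
    _ ≤ (N : ℝ) ^ (1 / 2 : ℝ) * (N : ℝ) ^ (1 / 2 : ℝ) := mul_le_mul_of_nonneg_right h2 (by positivity)
    _ = N := by
        rw [← Real.rpow_add hN0]
        norm_num

/-- the family of all vectors of residues -/
lemma vfam_univ (q : ℕ) [NeZero q] : VFam q (univ : Finset (ι → ZMod q)) (fun i => i) q := by
  classical
  refine ⟨le_rfl, fun h hh => ?_⟩
  obtain ⟨j₀, hj₀⟩ : ∃ j, h j ≠ 0 := by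
    by_contra hcon
    push Not at hcon
    exact hh (funext hcon)
  have h1 : ∑ i : ι → ZMod q, (ZMod.stdAddChar (∑ j, h j * i j) : ℂ) = 0 := by
    have h2 : ∀ i : ι → ZMod q, (ZMod.stdAddChar (∑ j, h j * i j) : ℂ) = ∏ j, (ZMod.stdAddChar (h j * i j) : ℂ) := by
      intro i
      have : ∀ s : Finset ι, (ZMod.stdAddChar (∑ j ∈ s, h j * i j) : ℂ) = ∏ j ∈ s, (ZMod.stdAddChar (h j * i j) : ℂ) := by
        intro s
        induction s using Finset.induction_on with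
        | empty => simp
        | insert a s ha ih => rw [sum_insert ha, prod_insert ha, AddChar.map_add_eq_mul, ih]
      exact this univ
    rw [sum_congr rfl fun i _ => h2 i]
    have h3 := (prod_univ_sum (fun _ : ι => (univ : Finset (ZMod q))) (fun j z => (ZMod.stdAddChar (h j * z) : ℂ))).symm
    rw [Fintype.piFinset_univ] at h3
    rw [h3]
    apply prod_eq_zero (mem_univ j₀)
    have h4 := AddChar.sum_mulShift (R' := ℂ) (h j₀) (ZMod.isPrimitive_stdAddChar q)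
    rw [if_neg hj₀] at h4
    have h5 : ∑ z : ZMod q, (ZMod.stdAddChar (z * h j₀) : ℂ) = 0 := by
      rw [h4]
      simp
    refine Eq.trans (sum_congr rfl fun z _ => ?_) h5
    rw [mul_comm]
  rw [h1, norm_zero]
  have : (0 : ℝ) ≤ Real.log q := Real.log_natCast_nonneg q
  positivity

/-- **Transfer.** What holds for almost all the members of all well distributed sequences of vectors holds for almost all
members of families of vectors of residues with small Fourier coefficients, uniformly. The property can depend on a further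
parameter `k`, in which it is monotone. -/
theorem transferK (P : ℕ → ℕ → (ι → ℤ) → Prop) (hmono : ∀ k k' N v, k ≤ k' → P k N v → P k' N v) (ε : ℝ) (hε : 0 < ε)
    (h : ∀ (S : ℕ → Finset ℕ) (x : ℕ → ι → ℤ),
      (∃ N₀ : ℕ, ∀ N : ℕ, N₀ ≤ N → ∀ H : ℕ, (H : ℝ) ≤ (N : ℝ) ^ kap ι → Well (S N) x H) →
      ∃ k N₀ : ℕ, ∀ N : ℕ, N₀ ≤ N → ({n : ℕ | n ∈ S N ∧ ¬ P k N (x n)}.ncard : ℝ) ≤ ε * (S N).card) :
    ∃ k Z₀ : ℕ, ∀ (τ : Type) (q : ℕ) [NeZero q] (s : Finset τ) (y : τ → ι → ZMod q) (Z : ℝ), Z₀ ≤ Z → VFam q s y Z →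
      ∀ c₀ : ι → ℤ, ({i : τ | i ∈ s ∧ ¬ P k ⌊Z⌋₊ (fun j => c₀ j + ((y i j).val : ℕ))}.ncard : ℝ) ≤ ε * s.card := by
  classical
  by_contra hcon
  push Not at hcon
  have hfil : ∀ {τ : Type} (s : Finset τ) (Q : τ → Prop), {i : τ | i ∈ s ∧ Q i}.ncard = (s.filter Q).card := by
    intro τ s Q
    rw [← Set.ncard_coe_finset]
    congr 1
    ext i
    simp
  simp only [hfil] at hcon h
  -- a family for every number
  have hch : ∀ N : ℕ, ∃ (τ : Type) (s : Finset τ) (c : τ → ι → ℤ),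
      (∀ H : ℕ, 2 * (2 * (H : ℝ) + 1) ^ (Fintype.card ι + 2) ≤ N → WellF s c H) ∧
      ∀ k : ℕ, k ≤ N → ((∃ (τ : Type) (q : ℕ) (_ : NeZero q) (s : Finset τ) (y : τ → ι → ZMod q) (Z : ℝ) (c₀ : ι → ℤ),
        ⌊Z⌋₊ = N ∧ VFam q s y Z ∧ 0 ≤ Z ∧
        ε * s.card < ((s.filter fun i => ¬ P k N (fun j => c₀ j + ((y i j).val : ℕ))).card : ℝ)) →
        ε * s.card < ((s.filter fun i => ¬ P k N (c i)).card : ℝ)) := by
    intro N
    obtain ⟨B, hB⟩ : ∃ B : ℕ → Prop, B = fun k => ∃ (τ : Type) (q : ℕ) (_ : NeZero q) (s : Finset τ) (y : τ → ι → ZMod q)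
        (Z : ℝ) (c₀ : ι → ℤ), ⌊Z⌋₊ = N ∧ VFam q s y Z ∧ 0 ≤ Z ∧
        ε * s.card < ((s.filter fun i => ¬ P k N (fun j => c₀ j + ((y i j).val : ℕ))).card : ℝ) := ⟨_, rfl⟩
    by_cases hb : ∃ k, k ≤ N ∧ B k
    · obtain ⟨k₁, hk₁, hmax⟩ := exists_max_image ((range (N + 1)).filter B) id (by
        obtain ⟨k, hk, hBk⟩ := hb
        exact ⟨k, mem_filter.2 ⟨mem_range.2 (by omega), hBk⟩⟩)
      rw [mem_filter] at hk₁
      have hBk := hk₁.2
      rw [hB] at hBk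
      obtain ⟨τ, q, _, s, y, Z, c₀, h1, h2, h3, h4⟩ := hBk
      refine ⟨τ, s, fun i j => c₀ j + ((y i j).val : ℕ), fun H hH => ?_, fun k hkN hbk => ?_⟩
      · have hs : s.Nonempty := by
          rw [nonempty_iff_ne_empty]
          rintro rfl
          simp at h4
        refine wellF_of h2 hs c₀ H (hH.trans ?_)
        rw [← h1]
        exact Nat.floor_le h3
      · have hkk : k ≤ k₁ := hmax k (mem_filter.2 ⟨mem_range.2 (by omega), by rw [hB]; exact hbk⟩)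
        refine lt_of_lt_of_le h4 (Nat.cast_le.2 (card_le_card ?_))
        intro i hi
        rw [mem_filter] at hi ⊢
        exact ⟨hi.1, fun h5 => hi.2 (hmono k k₁ N _ hkk h5)⟩
    · refine ⟨ι → ZMod (N + 1), univ, fun i j => (((i j).val : ℕ) : ℤ), fun H hH => ?_, fun k hk hb' => ?_⟩
      · have h1 := wellF_of (vfam_univ (ι := ι) (N + 1)) univ_nonempty (fun _ => 0) H (hH.trans (by push_cast; linarith))
        simp only [zero_add] at h1
        exact h1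
      · exact absurd ⟨k, hk, by rw [hB]; exact hb'⟩ hb
  choose τ s c hw hbad using hch
  obtain ⟨N₁, hN₁⟩ := kap_ev ι
  obtain ⟨k, N₂, hN₂⟩ := h (blk fun N => ⟨τ N, s N⟩) (seq (fun N => ⟨τ N, s N⟩) c)
    ⟨N₁, fun N hN H hH => well_blk _ _ N H (hw N H (hN₁ N hN H hH))⟩
  obtain ⟨τ', q, _, s₁, y, Z, hZ, hv, c₀, hlt⟩ := hcon k (N₂ + k)
  have hZ0 : 0 ≤ Z := le_trans (Nat.cast_nonneg _) hZ
  have hfl := Nat.le_floor hZ
  have h1 := hbad ⌊Z⌋₊ k (by omega) ⟨τ', q, inferInstance, s₁, y, Z, c₀, rfl, hv, hZ0, lt_of_lt_of_eq hlt (by congr!)⟩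
  have h2 := hN₂ ⌊Z⌋₊ (by omega)
  rw [card_blk] at h2
  have h3 := card_blk_filter (fun N => ⟨τ N, s N⟩) c ⌊Z⌋₊ (fun v => ¬ P k ⌊Z⌋₊ v)
  have h4 : (((s ⌊Z⌋₊).filter (fun i => ¬ P k ⌊Z⌋₊ (c ⌊Z⌋₊ i))).card : ℝ) ≤ ε * (s ⌊Z⌋₊).card := by
    refine le_trans (le_of_eq ?_) h2
    congr 1
    convert h3.symm
  exact absurd h4 (not_le.2 (lt_of_lt_of_eq h1 (by congr!)))

/-- **Transfer.** The same, for assertions on sequences which are well distributed with any exponent. -/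
theorem transferM (P : ℕ → ℕ → (ι → ℤ) → Prop) (hmono : ∀ k k' N v, k ≤ k' → P k N v → P k' N v) (ε : ℝ) (hε : 0 < ε)
    (h : ∀ (S : ℕ → Finset ℕ) (x : ℕ → ι → ℤ) (κ : ℝ), 0 < κ →
      (∃ N₀ : ℕ, ∀ N : ℕ, N₀ ≤ N → ∀ H : ℕ, (H : ℝ) ≤ (N : ℝ) ^ κ → Well (S N) x H) →
      ∃ k N₀ : ℕ, ∀ N : ℕ, N₀ ≤ N → ({n : ℕ | n ∈ S N ∧ ¬ P k N (x n)}.ncard : ℝ) ≤ ε * (S N).card) :
    ∃ k Z₀ : ℕ, ∀ (τ : Type) (q : ℕ) [NeZero q] (s : Finset τ) (y : τ → ι → ZMod q) (Z : ℝ), Z₀ ≤ Z → VFam q s y Z →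
      ∀ c₀ : ι → ℤ, ({i : τ | i ∈ s ∧ ¬ P k ⌊Z⌋₊ (fun j => c₀ j + ((y i j).val : ℕ))}.ncard : ℝ) ≤ ε * s.card :=
  transferK P hmono ε hε fun S x hw => h S x (kap ι) (kap_pos ι) hw

/-- a well distributed family as a well distributed set of integers -/
theorem wellF_exists {τ : Type} (s : Finset τ) (c : τ → ι → ℤ) : ∃ (S : Finset ℕ) (x : ℕ → ι → ℤ),
    (∀ H, WellF s c H → Well S x H) ∧ S.card = s.card ∧
    ∀ Q : (ι → ℤ) → Prop, {n : ℕ | n ∈ S ∧ Q (x n)}.ncard = {i : τ | i ∈ s ∧ Q (c i)}.ncard := by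
  classical
  refine ⟨blk (fun _ => ⟨τ, s⟩) 0, seq (fun _ => ⟨τ, s⟩) (fun _ => c), fun H h => well_blk (fun _ => ⟨τ, s⟩) (fun _ => c) 0 H h,
    card_blk _ 0, fun Q => ?_⟩
  have h := card_blk_filter (fun _ => ⟨τ, s⟩) (fun _ => c) 0 Q
  have e1 : {n : ℕ | n ∈ blk (fun _ => ⟨τ, s⟩) 0 ∧ Q (seq (fun _ => ⟨τ, s⟩) (fun _ => c) n)} =
      ↑((blk (fun _ => ⟨τ, s⟩) 0).filter (fun n => Q (seq (fun _ => ⟨τ, s⟩) (fun _ => c) n))) := by
    ext n
    simp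
  have e2 : {i : τ | i ∈ s ∧ Q (c i)} = ↑(s.filter (fun i => Q (c i))) := by
    ext n
    simp
  rw [e1, e2, Set.ncard_coe_finset, Set.ncard_coe_finset]
  exact h

/-- **Transfer**, for properties without a parameter -/
theorem transfer (P : ℕ → (ι → ℤ) → Prop) (ε : ℝ) (hε : 0 < ε)
    (h : ∀ (S : ℕ → Finset ℕ) (x : ℕ → ι → ℤ) (κ : ℝ), 0 < κ →
      (∃ N₀ : ℕ, ∀ N : ℕ, N₀ ≤ N → ∀ H : ℕ, (H : ℝ) ≤ (N : ℝ) ^ κ → Well (S N) x H) →
      ∃ N₀ : ℕ, ∀ N : ℕ, N₀ ≤ N → ({n : ℕ | n ∈ S N ∧ ¬ P N (x n)}.ncard : ℝ) ≤ ε * (S N).card) :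
    ∃ Z₀ : ℕ, ∀ (τ : Type) (q : ℕ) [NeZero q] (s : Finset τ) (y : τ → ι → ZMod q) (Z : ℝ), Z₀ ≤ Z → VFam q s y Z →
      ∀ c₀ : ι → ℤ, ({i : τ | i ∈ s ∧ ¬ P ⌊Z⌋₊ (fun j => c₀ j + ((y i j).val : ℕ))}.ncard : ℝ) ≤ ε * s.card := by
  obtain ⟨k, Z₀, h1⟩ := transferM (fun _ N v => P N v) (fun _ _ _ _ _ h => h) ε hε (fun S x κ hκ hw => by
    obtain ⟨N₀, h2⟩ := h S x κ hκ hw
    exact ⟨0, N₀, h2⟩)
  exact ⟨Z₀, h1⟩

end

end Pool.Agent.N384.VF
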