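import Pool.Agent.N384.VF.Nw
import Pool.Agent.N647.NG.SurfT

/-!
# Nagao's sums for families with coefficients in families of vectors of residues

The analogues of the theorems of `Pool.Agent.N647.NG` (helper647) on integer parts of generalised polynomials; the proofs are the
same, with `vf_conv` in place of `thin_conv`.
-/

set_option autoImplicit false

namespace Pool.Agent.N384.VF

open Finset Polynomial NumberField IsDedekindDomain Filter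
open Pool.Agent.N842.HS (VT mem_VT cf norm_card)
open Pool.Agent.N647.TS Pool.Agent.N647.NG

variable {K : Type} [Field K] [NumberField K] {m D : ℕ}

open Classical in
theorem genV {D g : ℕ} (ω : Fin g → 𝓞 K) (hω : Submodule.span ℤ (Set.range ω) = ⊤) (δ : ℝ) (hδ : 0 < δ) (A B : ℕ)
    {Θ : Type} (Q : Finset Θ) (Φ : Θ → ∀ v : HeightOneSpectrum (𝓞 K), (Fin D → 𝓞 K ⧸ v.asIdeal) → ℝ) (M : Θ → ℝ)
    (hbd : ∀ θ ∈ Q, ∃ C : ℝ, 0 ≤ C ∧ ∀ v, (∀ u, |Φ θ v u| ≤ C * Real.sqrt (Ideal.absNorm v.asIdeal)) ∧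
      av v (fun u => Φ θ v u ^ 2) ≤ C ∧ |av v (Φ θ v) - M θ| ≤ C / Real.sqrt (Ideal.absNorm v.asIdeal)) :
    ∃ κ : ℝ, 0 < κ ∧ ∃ y₀ : ℕ, ∀ y N : ℕ, y₀ ≤ y →
    ∀ W : ℕ → Set (HeightOneSpectrum (𝓞 K) → ℝ), (∀ T, (W T).Finite ∧ (W T).ncard ≤ T ^ B) → (∀ T, ∀ w ∈ W T, ∀ v, |w v| ≤ 1) →
    ∀ E : (Fin (D * g) → ℕ) → Prop,
    (∀ m, (∀ T : ℕ, y ≤ T → (T : ℝ) ≤ (N : ℝ) ^ κ → ∀ w ∈ W T, ∀ θ ∈ Q,
      |∑ v ∈ VT K T, w v * ((Φ θ v (rd ω v m) - M θ) * Real.log (Ideal.absNorm v.asIdeal))| ≤ (T : ℝ) ^ (1 / 2 + δ)) → E m) →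
    VB N y A E := by
  obtain ⟨Me, y₁, h1⟩ := genW ω hω δ hδ A B Q Φ M hbd
  obtain ⟨κ, hκ, y₂, h2⟩ := vf_conv (D * g) Me
  refine ⟨κ, hκ, y₁ + y₂, fun y N hy W hW hW1 E hE => ?_⟩
  exact h2 y N A (by omega) (fun T m => ∀ w ∈ W T, ∀ θ ∈ Q,
    |∑ v ∈ VT K T, w v * ((Φ θ v (rd ω v m) - M θ) * Real.log (Ideal.absNorm v.asIdeal))| ≤ (T : ℝ) ^ (1 / 2 + δ))
    (fun S t H hw E' hE' => h1 S t H y hw (by omega) W hW hW1 E' hE') E hE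


open Classical in
theorem nagV (hm : 1 ≤ m) (F₀ : (MvPolynomial (Fin m) (𝓞 K))[X]) (h : Fin D → (MvPolynomial (Fin m) (𝓞 K))[X])
    {g' : ℕ} (hF : F₀.Monic) (hd : F₀.natDegree = 2 * g' + 1) (hh : ∀ i, (h i).natDegree < 2 * g' + 1) (r C₀ : ℝ)
    (S : Set (HeightOneSpectrum (𝓞 K))) (hS : S.Finite) (hs : ∀ v ∉ S, SepV v h)
    (hb : ∀ v ∉ S, |(cc v F₀ h : ℝ) - cb v h - r * (Ideal.absNorm v.asIdeal : ℝ) ^ m| ≤
      C₀ * ((Ideal.absNorm v.asIdeal : ℝ) ^ m / Real.sqrt (Ideal.absNorm v.asIdeal)))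
    (P : MvPolynomial (Fin D) (𝓞 K)) (hP : P ≠ 0)
    {g : ℕ} (ω : Fin g → 𝓞 K) (hω : Submodule.span ℤ (Set.range ω) = ⊤) (δ : ℝ) (hδ : 0 < δ) (A B : ℕ) :
    ∃ κ : ℝ, 0 < κ ∧ ∃ y₀ : ℕ, ∀ y N : ℕ, y₀ ≤ y →
    ∀ W : ℕ → Set (HeightOneSpectrum (𝓞 K) → ℝ), (∀ T, (W T).Finite ∧ (W T).ncard ≤ T ^ B) → (∀ T, ∀ w ∈ W T, ∀ v, |w v| ≤ 1) →
    ∀ E : (Fin (D * g) → ℕ) → Prop,
    (∀ n, (∀ T : ℕ, y ≤ T → (T : ℝ) ≤ (N : ℝ) ^ κ → ∀ w ∈ W T, ∀ R : Set (HeightOneSpectrum (𝓞 K)),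
      (∀ v ∈ R, MvPolynomial.eval (cf ω n) P ∈ v.asIdeal) →
      |∑ v ∈ (VT K T).filter (fun v => v ∉ R), w v * ((AA (mkv v) (mem F₀ h (cf ω n)) + r) * Real.log (Ideal.absNorm v.asIdeal))| ≤
        (T : ℝ) ^ (1 / 2 + δ)) → E n) →
    VB N y A E := by
  obtain ⟨Φ, hΦ⟩ : ∃ Φ : ∀ v : HeightOneSpectrum (𝓞 K), (Fin D → 𝓞 K ⧸ v.asIdeal) → ℝ, Φ = fun v u => Ag (mkv v) F₀ h u + r := ⟨_, rfl⟩
  obtain ⟨C₁, hC₁⟩ : ∃ C₁ : ℝ, C₁ = 2 * g' + |r| + (2 + 2 * C₀ ^ 2) + |C₀| := ⟨_, rfl⟩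
  have hC₁0 : 0 ≤ C₁ := by
    rw [hC₁]
    positivity
  have h2 : {v : HeightOneSpectrum (𝓞 K) | (2 : 𝓞 K) ∈ v.asIdeal}.Finite := finite_dvd 2 two_ne_zero
  -- the bounds for the averages
  have hbd1 : ∀ v ∉ S ∪ {v : HeightOneSpectrum (𝓞 K) | (2 : 𝓞 K) ∈ v.asIdeal}, Bd C₁ 0 v (Φ v) := by
    intro v hv
    rw [Set.mem_union, not_or] at hv
    rw [hΦ, hC₁]
    exact Bd_main hm F₀ h hF hd hh r C₀ v hv.2 (hs v hv.1) (hb v hv.1)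
  obtain ⟨C₂, hC₂0, hC₂⟩ := upgrade Φ 0 _ (hS.union h2) C₁ hC₁0 hbd1
  -- the bounds for the bad part
  obtain ⟨s, hs'⟩ : ∃ s, P.coeff s ≠ 0 := by
    by_contra hcon
    push Not at hcon
    exact hP (MvPolynomial.ext _ _ fun s => by rw [hcon s, MvPolynomial.coeff_zero])
  obtain ⟨Ψ, hΨ⟩ : ∃ Ψ : ∀ v : HeightOneSpectrum (𝓞 K), (Fin D → 𝓞 K ⧸ v.asIdeal) → ℝ,
    Ψ = fun v u => |Φ v u| * (if MvPolynomial.eval u (MvPolynomial.map (mkv v) P) = 0 then 1 else 0) := ⟨_, rfl⟩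
  obtain ⟨C₃, hC₃0, hC₃⟩ := upgrade Ψ 0 _ (finite_dvd (P.coeff s) hs') (C₂ + Real.sqrt (C₂ * P.totalDegree)) (by positivity) (by
    intro v hv
    rw [hΨ]
    refine Bd_bad P v ?_ C₂ hC₂0 (Φ v) (hC₂ v)
    intro h0
    apply hv
    have h1 := congrArg (MvPolynomial.coeff s) h0
    rw [MvPolynomial.coeff_map, MvPolynomial.coeff_zero] at h1
    exact Ideal.Quotient.eq_zero_iff_mem.1 h1)
  obtain ⟨κ, hκ, y₁, hgen⟩ := genV ω hω (δ / 2) (by positivity) A (B + 1) (univ : Finset Bool) (fun b => if b then Φ else Ψ) (fun _ => 0)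
    (fun b _ => by
      cases b
      · exact ⟨C₃, hC₃0, fun v => hC₃ v⟩
      · exact ⟨C₂, hC₂0, fun v => hC₂ v⟩)
  have hev : ∀ᶠ T : ℕ in atTop, (2 : ℝ) ≤ (T : ℝ) ^ (δ / 2) := by
    have h1 : Tendsto (fun x : ℝ => x ^ (δ / 2)) atTop atTop := tendsto_rpow_atTop (by positivity)
    exact (h1.comp tendsto_natCast_atTop_atTop).eventually (eventually_ge_atTop _)
  obtain ⟨y₂, hy₂⟩ := eventually_atTop.1 hev
  refine ⟨κ, hκ, y₁ + y₂ + 2, fun y N hy W hW hW1 E hE => ?_⟩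
  obtain ⟨W', hW'⟩ : ∃ W' : ℕ → Set (HeightOneSpectrum (𝓞 K) → ℝ), W' = fun T => if 2 ≤ T then insert (fun _ => (1 : ℝ)) (W T) else ∅ := ⟨_, rfl⟩
  refine hgen y N (by omega) W' (fun T => ?_) (fun T w hw v => ?_) E fun n hn => hE n fun T hyT hTN w hw R hR => ?_
  · rw [hW']
    beta_reduce
    split_ifs with hT
    · refine ⟨(hW T).1.insert _, (Set.ncard_insert_le _ _).trans ?_⟩
      have h1 := (hW T).2
      have h3 : 1 ≤ T ^ B := Nat.one_le_pow _ _ (by omega)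
      rw [pow_succ]
      nlinarith
    · exact ⟨Set.finite_empty, by rw [Set.ncard_empty]; exact Nat.zero_le _⟩
  · rw [hW'] at hw
    beta_reduce at hw
    split_ifs at hw with hT
    · rcases Set.mem_insert_iff.1 hw with h1 | h1
      · rw [h1]
        simp
      · exact hW1 T w h1 v
    · exact absurd hw (Set.notMem_empty _)
  · have hT2 : 2 ≤ T := by omega
    have hw' : w ∈ W' T := by
      rw [hW']
      beta_reduce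
      rw [if_pos hT2]
      exact Set.mem_insert_of_mem _ hw
    have hone : (fun _ => (1 : ℝ)) ∈ W' T := by
      rw [hW']
      beta_reduce
      rw [if_pos hT2]
      exact Set.mem_insert _ _
    have e1 := hn T hyT hTN w hw' true (mem_univ _)
    have e2 := hn T hyT hTN (fun _ => 1) hone false (mem_univ _)
    simp only [if_true, sub_zero] at e1
    simp only [Bool.false_eq_true, if_false, sub_zero, one_mul] at e2
    have hterm : ∀ v : HeightOneSpectrum (𝓞 K), AA (mkv v) (mem F₀ h (cf ω n)) + r = Φ v (rd ω v n) := by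
      intro v
      rw [AA_mem, hΦ]
      rfl
    simp only [hterm]
    have e3 : ∑ v ∈ (VT K T).filter (fun v => v ∉ R), w v * (Φ v (rd ω v n) * Real.log (Ideal.absNorm v.asIdeal)) =
        ∑ v ∈ VT K T, w v * (Φ v (rd ω v n) * Real.log (Ideal.absNorm v.asIdeal)) -
        ∑ v ∈ (VT K T).filter (fun v => v ∈ R), w v * (Φ v (rd ω v n) * Real.log (Ideal.absNorm v.asIdeal)) := by
      rw [← sum_filter_add_sum_filter_not (VT K T) (fun v => v ∈ R)]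
      ring
    have hlog : ∀ v : HeightOneSpectrum (𝓞 K), 0 ≤ Real.log (Ideal.absNorm v.asIdeal) := fun v => Real.log_nonneg (q_one v)
    have e4 : |∑ v ∈ (VT K T).filter (fun v => v ∈ R), w v * (Φ v (rd ω v n) * Real.log (Ideal.absNorm v.asIdeal))| ≤
        ∑ v ∈ VT K T, Ψ v (rd ω v n) * Real.log (Ideal.absNorm v.asIdeal) := by
      refine (abs_sum_le_sum_abs _ _).trans ?_
      have hΨ0 : ∀ v u, 0 ≤ Ψ v u := by
        intro v u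
        rw [hΨ]
        exact mul_nonneg (abs_nonneg _) (by split_ifs <;> norm_num)
      refine le_trans (sum_le_sum fun v hv => ?_) (sum_le_sum_of_subset_of_nonneg (filter_subset (fun v => v ∈ R) (VT K T)) fun v _ _ => mul_nonneg (hΨ0 _ _) (hlog v))
      rw [mem_filter] at hv
      have h3 : Ψ v (rd ω v n) = |Φ v (rd ω v n)| := by
        rw [hΨ]
        beta_reduce
        rw [if_pos, mul_one]
        have h4 : MvPolynomial.eval (rd ω v n) (MvPolynomial.map (mkv v) P) = mkv v (MvPolynomial.eval (cf ω n) P) := by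
          rw [MvPolynomial.eval_map]
          exact (MvPolynomial.eval₂_comp_left (mkv v) (RingHom.id _) (cf ω n) P).symm.trans rfl |>.symm ▸ rfl
        rw [h4]
        exact Ideal.Quotient.eq_zero_iff_mem.2 (hR v hv.2)
      rw [h3, abs_mul, abs_mul, abs_of_nonneg (hlog v)]
      have h5 := hW1 T w hw v
      have h6 : 0 ≤ |Φ v (rd ω v n)| * Real.log (Ideal.absNorm v.asIdeal) := mul_nonneg (abs_nonneg _) (hlog v)
      nlinarith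
    have e5 := (le_abs_self _).trans e2
    have e6 : (2 : ℝ) * (T : ℝ) ^ (1 / 2 + δ / 2) ≤ (T : ℝ) ^ (1 / 2 + δ) := by
      have hT0 : (0 : ℝ) < T := by exact_mod_cast (by omega : 0 < T)
      have h7 := hy₂ T (by omega)
      have h8 : (T : ℝ) ^ (1 / 2 + δ) = (T : ℝ) ^ (δ / 2) * (T : ℝ) ^ (1 / 2 + δ / 2) := by
        rw [← Real.rpow_add hT0]
        congr 1
        ring
      rw [h8]
      exact mul_le_mul_of_nonneg_right h7 (by positivity)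
    rw [e3]
    refine (abs_sub _ _).trans ?_
    linarith


open Classical in
theorem anaV (hm : 1 ≤ m) (F₀ : (MvPolynomial (Fin m) (𝓞 K))[X]) (h : Fin D → (MvPolynomial (Fin m) (𝓞 K))[X])
    {g' : ℕ} (hF : F₀.Monic) (hd : F₀.natDegree = 2 * g' + 1) (hh : ∀ i, (h i).natDegree < 2 * g' + 1) (r C₀ : ℝ)
    (S : Set (HeightOneSpectrum (𝓞 K))) (hS : S.Finite) (hs : ∀ v ∉ S, SepV v h)
    (hb : ∀ v ∉ S, |(cc v F₀ h : ℝ) - cb v h - r * (Ideal.absNorm v.asIdeal : ℝ) ^ m| ≤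
      C₀ * ((Ideal.absNorm v.asIdeal : ℝ) ^ m / Real.sqrt (Ideal.absNorm v.asIdeal)))
    (P : MvPolynomial (Fin D) (𝓞 K)) (hP : P ≠ 0)
    {g : ℕ} (ω : Fin g → 𝓞 K) (hω : Submodule.span ℤ (Set.range ω) = ⊤) (δ : ℝ) (hδ : 0 < δ) (A B : ℕ) :
    ∃ κ : ℝ, 0 < κ ∧ ∃ y₀ : ℕ, ∀ y N : ℕ, y₀ ≤ y →
    ∀ W : Set (HeightOneSpectrum (𝓞 K) → ℝ), W.Finite → W.ncard ≤ y ^ B → (∀ w ∈ W, ∀ v, |w v| ≤ 1) →
    ∀ E : (Fin (D * g) → ℕ) → Prop,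
    (∀ n, (∀ T₁ T₂ : ℕ, y ≤ T₁ → T₁ ≤ T₂ → (T₂ : ℝ) ≤ (N : ℝ) ^ κ → ∀ w ∈ W, ∀ R : Set (HeightOneSpectrum (𝓞 K)),
      (∀ v ∈ R, MvPolynomial.eval (cf ω n) P ∈ v.asIdeal) → ∀ z : ℂ, 1 / 2 + δ ≤ z.re → |z.im| ≤ (T₁ : ℝ) ^ B →
      ‖∑ v ∈ (VT K T₂).filter (fun v => v ∉ R ∧ T₁ < Ideal.absNorm v.asIdeal),
        ((w v * ((AA (mkv v) (mem F₀ h (cf ω n)) + r) * Real.log (Ideal.absNorm v.asIdeal)) : ℝ) : ℂ) * (Ideal.absNorm v.asIdeal : ℂ) ^ (-z)‖ ≤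
          (T₁ : ℝ) ^ (1 / 2 + δ - z.re)) → E n) →
    VB N y A E := by
  obtain ⟨C, hC0, hC⟩ := AA_bound hm F₀ h hF hd hh r C₀ S hS hs hb
  obtain ⟨y₁, hdet⟩ := ana_det (K := K) δ hδ C hC0
  obtain ⟨κ, hκ, y₂, hnag⟩ := nagV hm F₀ h hF hd hh r C₀ S hS hs hb P hP ω hω (δ / 4) (by positivity) A (2 * B + 5)
  refine ⟨κ, hκ, y₁ + y₂ + 2, fun y N hy W hW hWc hW1 E hE => ?_⟩
  refine hnag y N (by omega) (fun T => if y ≤ T then Wt W B T else ∅) (fun T => ?_) (fun T w hw v => ?_) E fun n hn => hE n ?_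
  · beta_reduce
    split_ifs with hT
    · exact Wt_fin W hW B y T (by omega) hT hWc
    · exact ⟨Set.finite_empty, by rw [Set.ncard_empty]; exact Nat.zero_le _⟩
  · beta_reduce at hw
    split_ifs at hw with hT
    · exact Wt_le W hW1 B T w hw v
    · exact absurd hw (Set.notMem_empty _)
  · intro T₁ T₂ hyT hT12 hTN w hw R hR z hz1 hz2
    refine hdet B y T₂ (by omega) W hW1 (fun v => AA (mkv v) (mem F₀ h (cf ω n)) + r) (fun v => hC v _) R (fun T hyT' hTX w' hw' => ?_)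
      T₁ T₂ hyT hT12 le_rfl w hw z hz1 hz2
    refine hn T hyT' (le_trans (by exact_mod_cast hTX) hTN) w' ?_ R hR
    beta_reduce
    rw [if_pos hyT']
    exact hw'


open Classical in
theorem surfV (k : ℕ) (F₀ : (MvPolynomial (Fin (m + 1)) (𝓞 K))[X]) (h : Fin D → (MvPolynomial (Fin (m + 1)) (𝓞 K))[X])
    {g' : ℕ} (hF : F₀.Monic) (hd : F₀.natDegree = 2 * g' + 1) (hh : ∀ i, (h i).natDegree < 2 * g' + 1) (r C₀ : ℝ)
    (S : Set (HeightOneSpectrum (𝓞 K))) (hS : S.Finite) (hs : ∀ v ∉ S, SepV v h)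
    (hb : ∀ v ∉ S, |(cc v F₀ h : ℝ) - cb v h - r * (Ideal.absNorm v.asIdeal : ℝ) ^ (m + 1)| ≤
      C₀ * ((Ideal.absNorm v.asIdeal : ℝ) ^ (m + 1) / Real.sqrt (Ideal.absNorm v.asIdeal)))
    (P : MvPolynomial (Fin D) (𝓞 K)) (hP : P ≠ 0)
    {g : ℕ} (ω : Fin g → 𝓞 K) (hω : Submodule.span ℤ (Set.range ω) = ⊤) (δ : ℝ) (hδ : 0 < δ) (A B : ℕ) :
    ∃ κ : ℝ, 0 < κ ∧ ∃ y₀ : ℕ, ∀ y N : ℕ, y₀ ≤ y →
    ∀ W : Set (HeightOneSpectrum (𝓞 K) → ℝ), W.Finite → W.ncard ≤ y ^ B → (∀ w ∈ W, ∀ v, |w v| ≤ 1) →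
    ∀ E : (Fin (D * g) → ℕ) → Prop,
    (∀ n, (∀ w ∈ W, ∀ R : Set (HeightOneSpectrum (𝓞 K)), (∀ v ∈ R, MvPolynomial.eval (cf ω n) P ∈ v.asIdeal) →
      (∀ T : ℕ, y ≤ T → (T : ℝ) ≤ (N : ℝ) ^ κ →
        |∑ v ∈ (VT K T).filter (fun v => v ∉ R), w v * ((BB k (mkv v) (mem F₀ h (cf ω n)) - (2 + r) * Ideal.absNorm v.asIdeal) *
          Real.log (Ideal.absNorm v.asIdeal))| ≤ (T : ℝ) ^ (3 / 2 + δ)) ∧
      (∀ T₁ T₂ : ℕ, y ≤ T₁ → T₁ ≤ T₂ → (T₂ : ℝ) ≤ (N : ℝ) ^ κ → ∀ z : ℂ, 3 / 2 + δ ≤ z.re → |z.im| ≤ (T₁ : ℝ) ^ B →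
        ‖∑ v ∈ (VT K T₂).filter (fun v => v ∉ R ∧ T₁ < Ideal.absNorm v.asIdeal),
          ((w v * ((BB k (mkv v) (mem F₀ h (cf ω n)) - (2 + r) * Ideal.absNorm v.asIdeal) * Real.log (Ideal.absNorm v.asIdeal)) : ℝ) : ℂ) *
            (Ideal.absNorm v.asIdeal : ℂ) ^ (-z)‖ ≤ (T₁ : ℝ) ^ (3 / 2 + δ - z.re))) → E n) →
    VB N y A E := by
  obtain ⟨y₁, hy₁, hdet⟩ := surf_det (K := K) δ hδ (2 * g') (by positivity)
  obtain ⟨κ₁, hκ₁, y₂, hnag⟩ := nagV (by omega) F₀ h hF hd hh r C₀ S hS hs hb P hP ω hω (δ / 2) (by positivity) (A + 1) B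
  obtain ⟨κ₂, hκ₂, y₃, hana⟩ := anaV (by omega) F₀ h hF hd hh r C₀ S hS hs hb P hP ω hω (δ / 2) (by positivity) (A + 1) B
  refine ⟨min κ₁ κ₂, lt_min hκ₁ hκ₂, y₁ + y₂ + y₃ + 2, fun y N hy W hW hWc hW1 E hE => ?_⟩
  have hy2 : 2 ≤ y := by omega
  have hy0 : (0 : ℝ) < y := by exact_mod_cast (by omega : 0 < y)
  obtain ⟨E₁, hE₁⟩ : ∃ E₁ : (Fin (D * g) → ℕ) → Prop, E₁ = fun n => ∀ T : ℕ, y ≤ T → (T : ℝ) ≤ (N : ℝ) ^ κ₁ →
      ∀ w ∈ W, ∀ R : Set (HeightOneSpectrum (𝓞 K)), (∀ v ∈ R, MvPolynomial.eval (cf ω n) P ∈ v.asIdeal) →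
      |∑ v ∈ (VT K T).filter (fun v => v ∉ R), (w v * min ((Ideal.absNorm v.asIdeal : ℝ) / T) 1) *
        ((AA (mkv v) (mem F₀ h (cf ω n)) + r) * Real.log (Ideal.absNorm v.asIdeal))| ≤ (T : ℝ) ^ (1 / 2 + δ / 2) := ⟨_, rfl⟩
  obtain ⟨E₂, hE₂⟩ : ∃ E₂ : (Fin (D * g) → ℕ) → Prop, E₂ = fun n => ∀ T₁ T₂ : ℕ, y ≤ T₁ → T₁ ≤ T₂ → (T₂ : ℝ) ≤ (N : ℝ) ^ κ₂ →
      ∀ w ∈ W, ∀ R : Set (HeightOneSpectrum (𝓞 K)), (∀ v ∈ R, MvPolynomial.eval (cf ω n) P ∈ v.asIdeal) →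
      ∀ z : ℂ, 1 / 2 + δ / 2 ≤ z.re → |z.im| ≤ (T₁ : ℝ) ^ B →
      ‖∑ v ∈ (VT K T₂).filter (fun v => v ∉ R ∧ T₁ < Ideal.absNorm v.asIdeal),
        ((w v * ((AA (mkv v) (mem F₀ h (cf ω n)) + r) * Real.log (Ideal.absNorm v.asIdeal)) : ℝ) : ℂ) * (Ideal.absNorm v.asIdeal : ℂ) ^ (-z)‖ ≤
          (T₁ : ℝ) ^ (1 / 2 + δ / 2 - z.re) := ⟨_, rfl⟩
  have hboth : ∀ n, E₁ n → E₂ n → E n := by
    intro n h1 h2
    rw [hE₁] at h1
    rw [hE₂] at h2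
    obtain ⟨h3, h4⟩ := mem_monic F₀ h hF hd hh (cf ω n)
    refine hE n fun w hw R hR => ?_
    obtain ⟨h5, h6⟩ := hdet (fun v => AA (mkv v) (mem F₀ h (cf ω n)) + r)
      (fun v => BB k (mkv v) (mem F₀ h (cf ω n)) - (2 + r) * Ideal.absNorm v.asIdeal) (fun v => BB_bound k _ h3 h4 r v) w (hW1 w hw) R
    refine ⟨fun T hyT hTN => h5 T (by omega) (h1 T hyT (hTN.trans (rpow_min_le N hκ₁ hκ₂)) w hw R hR), fun T₁ T₂ hyT hT12 hTN z hz1 hz2 => ?_⟩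
    have h7 : (N : ℝ) ^ (min κ₁ κ₂) ≤ (N : ℝ) ^ κ₂ := by
      rw [min_comm]
      exact rpow_min_le N hκ₂ hκ₁
    refine h6 T₁ T₂ (by omega) z hz1 (h2 T₁ T₂ hyT hT12 (hTN.trans h7) w hw R hR (z - 1) ?_ ?_)
    · rw [Complex.sub_re, Complex.one_re]
      linarith
    · rw [Complex.sub_im, Complex.one_im, sub_zero]
      exact hz2
  have a1 := hnag y N (by omega)
    (fun T => if y ≤ T then (fun w : HeightOneSpectrum (𝓞 K) → ℝ => fun v => w v * min ((Ideal.absNorm v.asIdeal : ℝ) / T) 1) '' W else ∅)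
    (fun T => by
      beta_reduce
      split_ifs with hT
      · exact ⟨hW.image _, (Set.ncard_image_le hW).trans (hWc.trans (Nat.pow_le_pow_left hT B))⟩
      · exact ⟨Set.finite_empty, by rw [Set.ncard_empty]; exact Nat.zero_le _⟩)
    (fun T w hw v => by
      beta_reduce at hw
      split_ifs at hw with hT
      · obtain ⟨w', hw', rfl⟩ := hw
        beta_reduce
        rw [abs_mul]
        refine mul_le_one₀ (hW1 w' hw' v) (abs_nonneg _) ?_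
        have h8 : 0 ≤ min ((Ideal.absNorm v.asIdeal : ℝ) / T) 1 := le_min (by positivity) zero_le_one
        rw [abs_of_nonneg h8]
        exact min_le_right _ _
      · exact absurd hw (Set.notMem_empty _)) E₁ (fun n hn => by
        rw [hE₁]
        intro T hyT hTN w hw R hR
        refine hn T hyT hTN _ ?_ R hR
        beta_reduce
        rw [if_pos hyT]
        exact ⟨w, hw, rfl⟩)
  have b1 := hana y N (by omega) W hW hWc hW1 E₂ (fun n hn => by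
    rw [hE₂]
    exact hn)
  exact a1.union hy2 b1 hboth

end Pool.Agent.N384.VF
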